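import Mathlib

/-!
# Families of closed curves on the round two-sphere

The surface is the round unit sphere `S²` in Euclidean `3`-space `E3`, with the Riemannian metric
induced from `E3`; the length of a curve on `S²` in this metric is its length in `E3`.

Closed curves are maps `c : [0,1] → S²`, written as functions `ℝ → E3` whose values outside
`[0,1]` are irrelevant.
-/

noncomputable section

open Set MeasureTheory
open scoped ContDiff

namespace Pool.Agent.Work.MP_49f0e1_gt

/-- Euclidean `3`-space. -/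
abbrev E3 : Type := EuclideanSpace ℝ (Fin 3)

/-- The round unit sphere `S²` in Euclidean `3`-space. -/
abbrev S2 : Type := Metric.sphere (0 : E3) 1

/-- `c : [0,1] → E3` is piecewise smooth: it is continuous on `[0,1]`, and there is a finite set
`T` of times such that `c` is `C^∞` (up to the end points) on every interval `[a,b] ⊆ [0,1]` whose
interior contains no point of `T`. -/
def PiecewiseSmooth (c : ℝ → E3) : Prop :=
  ContinuousOn c (Icc 0 1) ∧
    ∃ T : Finset ℝ, ∀ a b : ℝ, 0 ≤ a → b ≤ 1 → (∀ t ∈ T, t ∉ Ioo a b) →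
      ContDiffOn ℝ ∞ c (Icc a b)

/-- `c : [0,1] → S²` is a closed curve on the round sphere: it is piecewise smooth, it takes its
values on the unit sphere, and `c 0 = c 1`. -/
def IsClosedCurve (c : ℝ → E3) : Prop :=
  PiecewiseSmooth c ∧ (∀ t ∈ Icc (0 : ℝ) 1, ‖c t‖ = 1) ∧ c 0 = c 1

/-- The length of the curve `c : [0,1] → S² ⊂ E3`: the integral of its speed. -/
def len (c : ℝ → E3) : ℝ := ∫ t in (0 : ℝ)..1, ‖deriv c t‖

/-- The curve that traverses `c` exactly `n` times: `t ↦ c (n t mod 1)`. -/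
def multiple (n : ℕ) (c : ℝ → E3) : ℝ → E3 := fun t => c (Int.fract (n * t))

/-- `γ` is a family of closed curves on `S²` depending continuously on the parameter in `P`. -/
def IsFamily {P : Type} [TopologicalSpace P] (γ : P → ℝ → E3) : Prop :=
  (∀ s, IsClosedCurve (γ s)) ∧
    ContinuousOn (fun p : P × ℝ => γ p.1 p.2) (univ ×ˢ Icc (0 : ℝ) 1)

/-- The family `γ` of closed curves on `S²` admits a deformation `H` to a family of points (of
constant curves) through closed curves of length less than `L`. Here `H τ s`, for `τ ∈ [0,1]` and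
`s ∈ P`, is a closed curve on `S²` depending continuously on `(τ, s)`, in the weakest sense: the
point `H τ s t` depends continuously on `(τ, s, t)`. -/
def DeformsToPoints {P : Type} [TopologicalSpace P] (γ : P → ℝ → E3) (L : ℝ) : Prop :=
  ∃ H : ℝ → P → ℝ → E3,
    ContinuousOn (fun p : ℝ × P × ℝ => H p.1 p.2.1 p.2.2) (Icc 0 1 ×ˢ univ ×ˢ Icc 0 1) ∧
    (∀ τ ∈ Icc (0 : ℝ) 1, ∀ s, IsClosedCurve (H τ s) ∧ len (H τ s) < L) ∧
    (∀ s, ∀ t ∈ Icc (0 : ℝ) 1, H 0 s t = γ s t) ∧
    (∀ s, ∀ t ∈ Icc (0 : ℝ) 1, H 1 s t = H 1 s 0)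

/-- The same with a strong form of continuity: all curves `H τ s` are `C^∞` and both the point
`H τ s t` and the velocity vector of `H τ s` at `t` depend continuously on `(τ, s, t)`. -/
def StronglyDeformsToPoints {P : Type} [TopologicalSpace P] (γ : P → ℝ → E3) (L : ℝ) : Prop :=
  ∃ H : ℝ → P → ℝ → E3,
    Continuous (fun p : ℝ × P × ℝ => H p.1 p.2.1 p.2.2) ∧
    Continuous (fun p : ℝ × P × ℝ => deriv (H p.1 p.2.1) p.2.2) ∧
    (∀ τ s, ContDiff ℝ ∞ (H τ s)) ∧
    (∀ τ ∈ Icc (0 : ℝ) 1, ∀ s, IsClosedCurve (H τ s) ∧ len (H τ s) < L) ∧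
    (∀ s, ∀ t ∈ Icc (0 : ℝ) 1, H 0 s t = γ s t) ∧
    (∀ s, ∀ t ∈ Icc (0 : ℝ) 1, H 1 s t = H 1 s 0)

/-- The parameter space `S² × [0,1]^m`, of dimension `m + 2`. For `m = 0` it is the sphere `S²`. -/
abbrev Param (m : ℕ) : Type := S2 × (Fin m → unitInterval)

/-- The rotation of `E3` by the angle `θ` about the third coordinate axis. -/
def rotz (θ : ℝ) (x : E3) : E3 :=
  !₂[Real.cos θ * x 0 - Real.sin θ * x 1, Real.sin θ * x 0 + Real.cos θ * x 1, x 2]

/-- The family of parallels of the sphere: the parameter is `p = (s, q)` with `s ∈ S²` and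
`q ∈ [0,1]^m`, and the closed curve with parameter `p` is the parallel circle
`t ↦ (rotation of s by the angle 2 π t about the third axis)`. -/
def parallels (m : ℕ) (p : Param m) (t : ℝ) : E3 := rotz (2 * Real.pi * t) p.1.1

end Pool.Agent.Work.MP_49f0e1_gt
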