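import Pool.Agent.Work.MP_49f0e1_gt.Stokes

/-!
# Invariance of a degree integral

A continuous map `Ψ : ℝ⁴ → S³`, periodic in the coordinate `x 2`, independent of `x 2` where one of
the other coordinates is at the boundary, and equal to a smooth map `f` (independent of `x 0`) for
`x 0 ≥ 1`, forces the degree integral of `f` to vanish.
-/

noncomputable section

open Set MeasureTheory Topology Metric
open scoped ContDiff Convolution

namespace Pool.Agent.Work.MP_49f0e1_gt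

/-- The lower corner of the box. -/
def bl : Fin 4 → ℝ := ![-1, -1, 0, -1]

/-- The upper corner of the box. -/
def bu : Fin 4 → ℝ := ![2, 2, 1, 2]

lemma bl_le_bu : bl ≤ bu := by
  intro i
  fin_cases i <;> simp [bl, bu] <;> norm_num

/-- Divergence theorem for the divergence free field. -/
theorem stokes {F : (Fin 4 → ℝ) → Fin 4 → ℝ} (hF : ContDiff ℝ ∞ F)
    (hlow : ∀ x ∈ Icc bl bu, 9 / 16 ≤ F x 0 ^ 2 + F x 1 ^ 2 + F x 2 ^ 2 + F x 3 ^ 2) :
    ∑ i : Fin 4, ((∫ x in Icc (bl ∘ i.succAbove) (bu ∘ i.succAbove),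
        field F (i.insertNth (bu i) x) i) -
      ∫ x in Icc (bl ∘ i.succAbove) (bu ∘ i.succAbove),
        field F (i.insertNth (bl i) x) i) = 0 := by
  have hW := contDiff_field hF
  have hdiff : Differentiable ℝ (field F) := hW.differentiable (by simp)
  have hcont : Continuous (fun x => ∑ i, fderiv ℝ (field F) x (ee i) i) := by
    have h1 : Continuous (fderiv ℝ (field F)) := hW.continuous_fderiv (by simp)
    refine continuous_finsetSum _ fun i _ => ?_
    exact (continuous_apply i).comp (h1.clm_apply continuous_const)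
  have key := integral_divergence_of_hasFDerivAt_off_countable bl bu bl_le_bu (field F)
    (fun x => fderiv ℝ (field F) x) ∅ Set.countable_empty hW.continuous.continuousOn
    (fun x _ => (hdiff x).hasFDerivAt)
    (hcont.continuousOn.integrableOn_compact isCompact_Icc)
  rw [← key]
  refine setIntegral_eq_zero_of_forall_eq_zero ?_
  intro x hx
  exact div_field hF x (hlow x hx)

/-- Lines in the direction `e₂` along which a function is constant have zero derivative. -/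
lemma grad_eq_zero {g : (Fin 4 → ℝ) → ℝ} (hg : Differentiable ℝ g) (x : Fin 4 → ℝ) (j : Fin 4)
    (h : ∀ u : ℝ, g (x + u • ee j) = g x) : grad g x j = 0 := by
  have h1 : HasDerivAt (fun u : ℝ => g (x + u • ee j)) (fderiv ℝ g x (ee j)) 0 :=
    (hg x).hasFDerivAt.hasLineDerivAt (ee j)
  simp only [h] at h1
  exact h1.unique (hasDerivAt_const _ _)

lemma grad_congr {g g' : (Fin 4 → ℝ) → ℝ} (hg : Differentiable ℝ g) (hg' : Differentiable ℝ g')
    (x : Fin 4 → ℝ) (j : Fin 4) (h : ∀ u : ℝ, g (x + u • ee j) = g' (x + u • ee j)) :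
    grad g x j = grad g' x j := by
  have h1 : HasDerivAt (fun u : ℝ => g (x + u • ee j)) (fderiv ℝ g x (ee j)) 0 :=
    (hg x).hasFDerivAt.hasLineDerivAt (ee j)
  have h2 : HasDerivAt (fun u : ℝ => g' (x + u • ee j)) (fderiv ℝ g' x (ee j)) 0 :=
    (hg' x).hasFDerivAt.hasLineDerivAt (ee j)
  simp only [h] at h1
  exact h1.unique h2

lemma grad_periodic {g : (Fin 4 → ℝ) → ℝ} (h : ∀ x, g (x + ee 2) = g x) (x : Fin 4 → ℝ) :
    grad g (x + ee 2) = grad g x := by
  have h1 : (fun x => g (x + ee 2)) = g := funext h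
  have h2 : fderiv ℝ g (x + ee 2) = fderiv ℝ (fun x => g (x + ee 2)) x :=
    (fderiv_comp_add_right (ee 2)).symm
  unfold grad
  rw [h2, h1]

lemma field_eq_zero {F : (Fin 4 → ℝ) → Fin 4 → ℝ} (hF : Differentiable ℝ F) (x : Fin 4 → ℝ)
    (h : ∀ u : ℝ, F (x + u • ee 2) = F x) (i : Fin 4) (hi : i ≠ 2) : field F x i = 0 := by
  have hd : ∀ a, Differentiable ℝ (fun x => F x a) := fun a => differentiable_pi.1 hF a
  unfold field
  rw [cross_eq_zero _ _ _ i 2 hi, mul_zero] <;>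
  · apply grad_eq_zero (hd _)
    intro u
    rw [h u]

lemma cross_zero_congr (p q r p' q' r' : Fin 4 → ℝ) (hp : ∀ j, j ≠ 0 → p j = p' j)
    (hq : ∀ j, j ≠ 0 → q j = q' j) (hr : ∀ j, j ≠ 0 → r j = r' j) :
    cross p q r 0 = cross p' q' r' 0 := by
  simp only [cross, Matrix.cons_val_zero]
  rw [hp 1 (by decide), hp 2 (by decide), hp 3 (by decide), hq 1 (by decide), hq 2 (by decide),
    hq 3 (by decide), hr 1 (by decide), hr 2 (by decide), hr 3 (by decide)]

/-- The data of a homotopy of maps to `S³` in coordinates. -/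
structure HomData (Ψ f : (Fin 4 → ℝ) → Fin 4 → ℝ) : Prop where
  cont : Continuous Ψ
  smooth : ContDiff ℝ ∞ f
  norm : ∀ x, Ψ x 0 ^ 2 + Ψ x 1 ^ 2 + Ψ x 2 ^ 2 + Ψ x 3 ^ 2 = 1
  per : ∀ x, Ψ (x + ee 2) = Ψ x
  ind : ∀ x, (x 0 ≤ 0 ∨ x 1 ≤ 0 ∨ 1 ≤ x 1 ∨ x 3 ≤ 0 ∨ 1 ≤ x 3) →
    ∀ u : ℝ, Ψ (x + u • ee 2) = Ψ x
  eq : ∀ x, 1 ≤ x 0 → Ψ x = f x
  ind0 : ∀ x, ∀ u : ℝ, f (x + u • ee 0) = f x

lemma HomData.f_eq {Ψ f : (Fin 4 → ℝ) → Fin 4 → ℝ} (H : HomData Ψ f) (x : Fin 4 → ℝ) :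
    f x = Ψ (x + (1 - x 0) • ee 0) := by
  rw [H.eq _ (by simp [ee]), H.ind0]

lemma HomData.f_per {Ψ f : (Fin 4 → ℝ) → Fin 4 → ℝ} (H : HomData Ψ f) (x : Fin 4 → ℝ) :
    f (x + ee 2) = f x := by
  rw [H.f_eq, H.f_eq x, ← H.per (x + (1 - x 0) • ee 0)]
  congr 1
  simp only [Pi.add_apply, ee, Pi.single_apply, Fin.isValue]
  simp
  abel

lemma HomData.f_ind {Ψ f : (Fin 4 → ℝ) → Fin 4 → ℝ} (H : HomData Ψ f) (x : Fin 4 → ℝ)
    (hx : x 1 ≤ 0 ∨ 1 ≤ x 1 ∨ x 3 ≤ 0 ∨ 1 ≤ x 3) (u : ℝ) :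
    f (x + u • ee 2) = f x := by
  rw [H.f_eq, H.f_eq x]
  have h1 : (x + u • ee 2) + (1 - (x + u • ee 2) 0) • ee 0
      = (x + (1 - x 0) • ee 0) + u • ee 2 := by
    simp [ee]
    abel
  rw [h1]
  apply H.ind
  right
  simpa [ee] using hx

/-- The mollified map. -/
def moll (φ : ContDiffBump (0 : Fin 4 → ℝ)) (Ψ : (Fin 4 → ℝ) → Fin 4 → ℝ) :
    (Fin 4 → ℝ) → Fin 4 → ℝ :=
  φ.normed volume ⋆[ContinuousLinearMap.lsmul ℝ ℝ, volume] Ψ

lemma moll_apply (φ : ContDiffBump (0 : Fin 4 → ℝ)) (Ψ : (Fin 4 → ℝ) → Fin 4 → ℝ)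
    (x : Fin 4 → ℝ) : moll φ Ψ x = ∫ t, φ.normed volume t • Ψ (x - t) := rfl

lemma contDiff_moll (φ : ContDiffBump (0 : Fin 4 → ℝ)) {Ψ : (Fin 4 → ℝ) → Fin 4 → ℝ}
    (hΨ : Continuous Ψ) : ContDiff ℝ ∞ (moll φ Ψ) :=
  φ.hasCompactSupport_normed.contDiff_convolution_left _ φ.contDiff_normed
    hΨ.locallyIntegrable

lemma moll_congr (φ : ContDiffBump (0 : Fin 4 → ℝ)) {Ψ : (Fin 4 → ℝ) → Fin 4 → ℝ}
    {x y : Fin 4 → ℝ} (h : ∀ t : Fin 4 → ℝ, ‖t‖ < φ.rOut → Ψ (x - t) = Ψ (y - t)) :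
    moll φ Ψ x = moll φ Ψ y := by
  rw [moll_apply, moll_apply]
  congr 1
  ext1 t
  by_cases ht : ‖t‖ < φ.rOut
  · rw [h t ht]
  · have : φ.normed volume t = 0 := by
      have h1 : t ∉ Function.support (φ.normed (volume : Measure (Fin 4 → ℝ))) := by
        rw [φ.support_normed_eq]
        simpa using ht
      simpa using h1
    rw [this, zero_smul, zero_smul]

/-- The degree integral of `f` vanishes. -/
theorem HomData.integral_eq_zero {Ψ f : (Fin 4 → ℝ) → Fin 4 → ℝ} (H : HomData Ψ f) :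
    ∫ x in Icc (bl ∘ (0 : Fin 4).succAbove) (bu ∘ (0 : Fin 4).succAbove),
      field f ((0 : Fin 4).insertNth 2 x) 0 = 0 := by
  -- choice of the mollifier
  obtain ⟨δ, hδ, hδ1, hclose⟩ : ∃ δ : ℝ, 0 < δ ∧ δ ≤ 1 ∧
      ∀ x ∈ Icc bl bu, ∀ y, dist y x < δ → dist (Ψ y) (Ψ x) ≤ 1 / 16 := by
    have h1 := isCompact_Icc.uniformContinuousAt_of_continuousAt (s := Icc bl bu) Ψ
      (fun a _ => H.cont.continuousAt) (dist_mem_uniformity (ε := 1 / 16) (by norm_num))
    rw [Metric.mem_uniformity_dist] at h1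
    obtain ⟨δ, hδ, h2⟩ := h1
    refine ⟨min δ 1, lt_min hδ one_pos, min_le_right _ _, ?_⟩
    intro x hx y hxy
    have h3 : dist x y < δ := by
      rw [dist_comm]
      exact hxy.trans_le (min_le_left _ _)
    have h4 : dist (Ψ x) (Ψ y) < 1 / 16 := h2 h3 hx
    rw [dist_comm]
    exact h4.le
  let φ : ContDiffBump (0 : Fin 4 → ℝ) := ⟨δ / 2, δ, by positivity, by linarith⟩
  have hφ : φ.rOut = δ := rfl
  set Ψε := moll φ Ψ with hΨε
  have hΨεs : ContDiff ℝ ∞ Ψε := contDiff_moll φ H.cont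
  have hclose2 : ∀ x ∈ Icc bl bu, dist (Ψε x) (Ψ x) ≤ 1 / 16 := by
    intro x hx
    apply ContDiffBump.dist_normed_convolution_le
    · exact H.cont.aestronglyMeasurable
    · intro y hy
      exact hclose x hx y hy
  set lam : ℝ → ℝ := fun s => Real.smoothTransition (s - 1) with hlam
  set ψ : (Fin 4 → ℝ) → Fin 4 → ℝ := fun x => (1 - lam (x 0)) • Ψε x + lam (x 0) • f x with hψ
  have hlams : ContDiff ℝ ∞ (fun x : Fin 4 → ℝ => lam (x 0)) :=
    Real.smoothTransition.contDiff.comp (by fun_prop)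
  have hψs : ContDiff ℝ ∞ ψ :=
    ((contDiff_const.sub hlams).smul hΨεs).add (hlams.smul H.smooth)
  have hψd : Differentiable ℝ ψ := hψs.differentiable (by simp)
  -- periodicity
  have hΨεper : ∀ x, Ψε (x + ee 2) = Ψε x := by
    intro x
    apply moll_congr
    intro t _
    rw [← H.per (x - t)]
    congr 1
    abel
  have hψper : ∀ x, ψ (x + ee 2) = ψ x := by
    intro x
    simp only [hψ, hΨεper, H.f_per]
    simp [ee]
  -- independence
  have hψind : ∀ x, (x 0 ≤ -1 ∨ x 1 ≤ -1 ∨ 2 ≤ x 1 ∨ x 3 ≤ -1 ∨ 2 ≤ x 3) →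
      ∀ u : ℝ, ψ (x + u • ee 2) = ψ x := by
    intro x hx u
    have h1 : Ψε (x + u • ee 2) = Ψε x := by
      apply moll_congr
      intro t ht
      have ht' : ∀ i, |t i| < 1 := fun i =>
        (norm_le_pi_norm t i).trans_lt (ht.trans_le (by rw [hφ]; exact hδ1))
      have h2 : x + u • ee 2 - t = (x - t) + u • ee 2 := by abel
      rw [h2]
      apply H.ind
      have a0 := abs_lt.1 (ht' 0)
      have a1 := abs_lt.1 (ht' 1)
      have a3 := abs_lt.1 (ht' 3)
      simp only [Pi.sub_apply]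
      rcases hx with h | h | h | h | h
      · left; linarith
      · right; left; linarith
      · right; right; left; linarith
      · right; right; right; left; linarith
      · right; right; right; right; linarith
    have h0 : (x + u • ee 2) 0 = x 0 := by simp [ee]
    simp only [hψ, h1, h0]
    rcases hx with h | h | h | h | h
    · have : lam (x 0) = 0 := Real.smoothTransition.zero_of_nonpos (by linarith)
      rw [this, zero_smul, zero_smul]
    · rw [H.f_ind x (Or.inl (by linarith))]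
    · rw [H.f_ind x (Or.inr (Or.inl (by linarith)))]
    · rw [H.f_ind x (Or.inr (Or.inr (Or.inl (by linarith))))]
    · rw [H.f_ind x (Or.inr (Or.inr (Or.inr (by linarith))))]
  -- lower bound
  have hlow : ∀ x ∈ Icc bl bu, 9 / 16 ≤ ψ x 0 ^ 2 + ψ x 1 ^ 2 + ψ x 2 ^ 2 + ψ x 3 ^ 2 := by
    intro x hx
    have hl0 : 0 ≤ lam (x 0) := Real.smoothTransition.nonneg _
    have hl1 : lam (x 0) ≤ 1 := Real.smoothTransition.le_one _
    have h1 : ψ x - Ψ x = (1 - lam (x 0)) • (Ψε x - Ψ x) := by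
      by_cases h0 : 1 ≤ x 0
      · rw [H.eq x h0]
        simp only [hψ]
        module
      · have : lam (x 0) = 0 := Real.smoothTransition.zero_of_nonpos (by linarith)
        simp only [hψ, this]
        module
    have h2 : ‖ψ x - Ψ x‖ ≤ 1 / 16 := by
      rw [h1, norm_smul, Real.norm_of_nonneg (by linarith)]
      have := hclose2 x hx
      rw [dist_eq_norm] at this
      nlinarith [norm_nonneg (Ψε x - Ψ x)]
    have h3 : ∀ i, |ψ x i - Ψ x i| ≤ 1 / 16 := fun i => by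
      have := norm_le_pi_norm (ψ x - Ψ x) i
      exact this.trans h2
    have h4 := H.norm x
    have e : ∀ i, Ψ x i ^ 2 * (7 / 8) - 1 / 32 ≤ ψ x i ^ 2 := by
      intro i
      have h5 := abs_le.1 (h3 i)
      have h6 : (ψ x i - Ψ x i) ^ 2 ≤ (1 / 16) ^ 2 := by
        rw [← sq_abs]
        exact pow_le_pow_left₀ (abs_nonneg _) (h3 i) 2
      nlinarith [sq_nonneg (Ψ x i + 8 * (ψ x i - Ψ x i)), sq_nonneg (ψ x i - Ψ x i)]
    have := e 0
    have := e 1
    have := e 2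
    have := e 3
    nlinarith
  -- Stokes
  have hst := stokes hψs hlow
  rw [Fin.sum_univ_four] at hst
  have hz : ∀ (i : Fin 4), i ≠ 2 → ∀ (c : ℝ),
      ((i = 0 ∧ c ≤ -1) ∨ (i = 1 ∧ (c ≤ -1 ∨ 2 ≤ c)) ∨ (i = 3 ∧ (c ≤ -1 ∨ 2 ≤ c))) →
      ∫ x in Icc (bl ∘ i.succAbove) (bu ∘ i.succAbove), field ψ (i.insertNth c x) i = 0 := by
    intro i hi c hc
    refine setIntegral_eq_zero_of_forall_eq_zero ?_
    intro x _
    apply field_eq_zero hψd _ _ i hi
    apply hψind
    rcases hc with ⟨rfl, h⟩ | ⟨rfl, h⟩ | ⟨rfl, h⟩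
    · left
      simpa using h
    · rcases h with h | h
      · right; left
        simpa using h
      · right; right; left
        simpa using h
    · rcases h with h | h
      · right; right; right; left
        simpa using h
      · right; right; right; right
        simpa using h
  rw [hz 0 (by decide) (bl 0) (Or.inl ⟨rfl, by simp [bl]⟩),
    hz 1 (by decide) (bl 1) (Or.inr (Or.inl ⟨rfl, Or.inl (by simp [bl])⟩)),
    hz 1 (by decide) (bu 1) (Or.inr (Or.inl ⟨rfl, Or.inr (by simp [bu])⟩)),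
    hz 3 (by decide) (bl 3) (Or.inr (Or.inr ⟨rfl, Or.inl (by simp [bl])⟩)),
    hz 3 (by decide) (bu 3) (Or.inr (Or.inr ⟨rfl, Or.inr (by simp [bu])⟩))] at hst
  have hper2 : (∫ x in Icc (bl ∘ (2 : Fin 4).succAbove) (bu ∘ (2 : Fin 4).succAbove),
        field ψ ((2 : Fin 4).insertNth (bu 2) x) 2) =
      ∫ x in Icc (bl ∘ (2 : Fin 4).succAbove) (bu ∘ (2 : Fin 4).succAbove),
        field ψ ((2 : Fin 4).insertNth (bl 2) x) 2 := by
    congr 1
    ext1 x
    have h1 : ((2 : Fin 4).insertNth (bu 2) x : Fin 4 → ℝ)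
        = (2 : Fin 4).insertNth (bl 2) x + ee 2 := by
      ext j
      rcases Fin.eq_self_or_eq_succAbove 2 j with rfl | ⟨k, rfl⟩
      · simp [bl, bu, ee]
      · simp [ee, Fin.succAbove_ne]
    rw [h1]
    have hp : ∀ a, ∀ x, (fun x => ψ x a) (x + ee 2) = (fun x => ψ x a) x := by
      intro a x
      show ψ (x + ee 2) a = ψ x a
      rw [hψper]
    unfold field
    rw [grad_periodic (hp 1), grad_periodic (hp 2), grad_periodic (hp 3), hψper]
  rw [hper2] at hst
  have hfin : (∫ x in Icc (bl ∘ (0 : Fin 4).succAbove) (bu ∘ (0 : Fin 4).succAbove),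
        field ψ ((0 : Fin 4).insertNth (bu 0) x) 0) = 0 := by linarith
  rw [← hfin]
  congr 1
  ext1 x
  have hbu : bu 0 = 2 := rfl
  rw [hbu]
  set y : Fin 4 → ℝ := (0 : Fin 4).insertNth 2 x with hy
  have hy0 : y 0 = 2 := by simp [hy]
  have hlam2 : lam 2 = 1 := Real.smoothTransition.one_of_one_le (by norm_num)
  have hψf : ∀ z : Fin 4 → ℝ, z 0 = 2 → ψ z = f z := by
    intro z hz
    simp only [hψ, hz, hlam2]
    module
  have hdf : Differentiable ℝ f := H.smooth.differentiable (by simp)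
  have hg : ∀ a, ∀ j, j ≠ 0 → grad (fun x => f x a) y j = grad (fun x => ψ x a) y j := by
    intro a j hj
    apply grad_congr (differentiable_pi.1 hdf a) (differentiable_pi.1 hψd a)
    intro u
    have : (y + u • ee j) 0 = 2 := by
      simp [ee, hy0, hj.symm]
    show f _ a = ψ _ a
    rw [hψf _ this]
  unfold field
  rw [hψf y hy0]
  congr 1
  exact cross_zero_congr _ _ _ _ _ _ (hg 1) (hg 2) (hg 3)

end Pool.Agent.Work.MP_49f0e1_gt
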