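import Pool.Agent.Work.MP_49f0e1_gt.Degree

/-!
# Evaluation of the degree integral

For the map `f (x) = cos u + sin u • q(x₁, x₂)`, `u = M π s(x₃)`, where `q` are spherical
coordinates on `S²` and `s` is the smooth step function, the degree integral does not vanish when
`M ≠ 0`.
-/

set_option linter.unusedSimpArgs false

noncomputable section

open Set MeasureTheory Topology Metric
open scoped ContDiff Convolution

namespace Pool.Agent.Work.MP_49f0e1_gt

/-- The smooth step function. -/
def st (x : ℝ) : ℝ := Real.smoothTransition x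

lemma contDiff_st : ContDiff ℝ ∞ st := Real.smoothTransition.contDiff

lemma st_of_nonpos {x : ℝ} (h : x ≤ 0) : st x = 0 := Real.smoothTransition.zero_of_nonpos h

lemma st_of_one_le {x : ℝ} (h : 1 ≤ x) : st x = 1 := Real.smoothTransition.one_of_one_le h

lemma hasDerivAt_st (x : ℝ) : HasDerivAt st (deriv st x) x :=
  ((contDiff_st.differentiable (by simp)) x).hasDerivAt

/-- The explicit map `ℝ⁴ → S³`. -/
def fM (M : ℝ) (x : Fin 4 → ℝ) : Fin 4 → ℝ :=
  ![Real.cos (M * Real.pi * st (x 3)),
    Real.sin (M * Real.pi * st (x 3)) * (Real.sin (Real.pi * st (x 1)) *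
      Real.cos (2 * Real.pi * x 2)),
    Real.sin (M * Real.pi * st (x 3)) * (Real.sin (Real.pi * st (x 1)) *
      Real.sin (2 * Real.pi * x 2)),
    Real.sin (M * Real.pi * st (x 3)) * Real.cos (Real.pi * st (x 1))]

lemma contDiff_fM (M : ℝ) : ContDiff ℝ ∞ (fM M) := by
  have h3 : ContDiff ℝ ∞ (fun x : Fin 4 → ℝ => M * Real.pi * st (x 3)) :=
    contDiff_const.mul (contDiff_st.comp (by fun_prop))
  have h1 : ContDiff ℝ ∞ (fun x : Fin 4 → ℝ => Real.pi * st (x 1)) :=
    contDiff_const.mul (contDiff_st.comp (by fun_prop))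
  have h2 : ContDiff ℝ ∞ (fun x : Fin 4 → ℝ => 2 * Real.pi * x 2) := by fun_prop
  rw [contDiff_pi]
  intro i
  fin_cases i
  · exact Real.contDiff_cos.comp h3
  · exact (Real.contDiff_sin.comp h3).mul ((Real.contDiff_sin.comp h1).mul
      (Real.contDiff_cos.comp h2))
  · exact (Real.contDiff_sin.comp h3).mul ((Real.contDiff_sin.comp h1).mul
      (Real.contDiff_sin.comp h2))
  · exact (Real.contDiff_sin.comp h3).mul (Real.contDiff_cos.comp h1)

/-- Partial derivatives from derivatives along coordinate lines. -/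
lemma grad_eq {g : (Fin 4 → ℝ) → ℝ} (hg : Differentiable ℝ g) (x : Fin 4 → ℝ) (j : Fin 4)
    {d : ℝ} (h : HasDerivAt (fun u : ℝ => g (x + u • ee j)) d 0) : grad g x j = d := by
  have h1 : HasDerivAt (fun u : ℝ => g (x + u • ee j)) (fderiv ℝ g x (ee j)) 0 :=
    (hg x).hasFDerivAt.hasLineDerivAt (ee j)
  exact h1.unique h

lemma hasDerivAt_st_line (c : ℝ) : HasDerivAt (fun u : ℝ => st (c + u)) (deriv st c) 0 := by
  have h1 : HasDerivAt (fun u : ℝ => c + u) 1 0 := (hasDerivAt_id (0 : ℝ)).const_add c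
  have h2 := (hasDerivAt_st (c + 0)).comp (0 : ℝ) h1
  simp only [add_zero, mul_one] at h2
  exact h2

lemma field_fM (M : ℝ) (x : Fin 4 → ℝ) :
    field (fM M) x 0 =
      (Real.smoothTransition (1 - 8 * Real.sin (M * Real.pi * st (x 3)) ^ 2) *
        Real.smoothTransition (Real.cos (M * Real.pi * st (x 3)) + 1 / 2) *
        Real.sin (M * Real.pi * st (x 3)) ^ 2 * Real.cos (M * Real.pi * st (x 3)) *
        (M * Real.pi * deriv st (x 3))) *
      (Real.sin (Real.pi * st (x 1)) * (Real.pi * deriv st (x 1))) * (2 * Real.pi) := by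
  have hd : ∀ a, Differentiable ℝ (fun x => fM M x a) := fun a =>
    (contDiff_comp (contDiff_fM M) a).differentiable (by simp)
  set u := M * Real.pi * st (x 3) with hu
  set v := Real.pi * st (x 1) with hv
  set w := 2 * Real.pi * x 2 with hw
  -- derivatives along lines of the three angles
  have du : HasDerivAt (fun t : ℝ => M * Real.pi * st (x 3 + t))
      (M * Real.pi * deriv st (x 3)) 0 := (hasDerivAt_st_line (x 3)).const_mul _
  have dv : HasDerivAt (fun t : ℝ => Real.pi * st (x 1 + t)) (Real.pi * deriv st (x 1)) 0 :=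
    (hasDerivAt_st_line (x 1)).const_mul _
  have dw : HasDerivAt (fun t : ℝ => 2 * Real.pi * (x 2 + t)) (2 * Real.pi) 0 := by
    simpa using ((hasDerivAt_id (0 : ℝ)).const_add (x 2)).const_mul (2 * Real.pi)
  have dsu : HasDerivAt (fun t : ℝ => Real.sin (M * Real.pi * st (x 3 + t)))
      (Real.cos u * (M * Real.pi * deriv st (x 3))) 0 := by
    simpa [hu] using du.sin
  have dsv : HasDerivAt (fun t : ℝ => Real.sin (Real.pi * st (x 1 + t)))
      (Real.cos v * (Real.pi * deriv st (x 1))) 0 := by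
    simpa [hv] using dv.sin
  have dcv : HasDerivAt (fun t : ℝ => Real.cos (Real.pi * st (x 1 + t)))
      (-Real.sin v * (Real.pi * deriv st (x 1))) 0 := by
    simpa [hv] using dv.cos
  have dsw : HasDerivAt (fun t : ℝ => Real.sin (2 * Real.pi * (x 2 + t)))
      (Real.cos w * (2 * Real.pi)) 0 := by
    simpa [hw] using dw.sin
  have dcw : HasDerivAt (fun t : ℝ => Real.cos (2 * Real.pi * (x 2 + t)))
      (-Real.sin w * (2 * Real.pi)) 0 := by
    simpa [hw] using dw.cos
  have g11 : grad (fun x => fM M x 1) x 1 =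
      Real.sin u * (Real.cos v * (Real.pi * deriv st (x 1)) * Real.cos w) := by
    apply grad_eq (hd 1)
    have h := (dsv.mul_const (Real.cos w)).const_mul (Real.sin u)
    simpa [fM, ee, hu, hv, hw] using h
  have g12 : grad (fun x => fM M x 1) x 2 =
      Real.sin u * (Real.sin v * (-Real.sin w * (2 * Real.pi))) := by
    apply grad_eq (hd 1)
    have h := (dcw.const_mul (Real.sin v)).const_mul (Real.sin u)
    simpa [fM, ee, hu, hv, hw] using h
  have g13 : grad (fun x => fM M x 1) x 3 =
      Real.cos u * (M * Real.pi * deriv st (x 3)) * (Real.sin v * Real.cos w) := by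
    apply grad_eq (hd 1)
    have h := dsu.mul_const (Real.sin v * Real.cos w)
    simpa [fM, ee, hu, hv, hw] using h
  have g21 : grad (fun x => fM M x 2) x 1 =
      Real.sin u * (Real.cos v * (Real.pi * deriv st (x 1)) * Real.sin w) := by
    apply grad_eq (hd 2)
    have h := (dsv.mul_const (Real.sin w)).const_mul (Real.sin u)
    simpa [fM, ee, hu, hv, hw] using h
  have g22 : grad (fun x => fM M x 2) x 2 =
      Real.sin u * (Real.sin v * (Real.cos w * (2 * Real.pi))) := by
    apply grad_eq (hd 2)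
    have h := (dsw.const_mul (Real.sin v)).const_mul (Real.sin u)
    simpa [fM, ee, hu, hv, hw] using h
  have g23 : grad (fun x => fM M x 2) x 3 =
      Real.cos u * (M * Real.pi * deriv st (x 3)) * (Real.sin v * Real.sin w) := by
    apply grad_eq (hd 2)
    have h := dsu.mul_const (Real.sin v * Real.sin w)
    simpa [fM, ee, hu, hv, hw] using h
  have g31 : grad (fun x => fM M x 3) x 1 =
      Real.sin u * (-Real.sin v * (Real.pi * deriv st (x 1))) := by
    apply grad_eq (hd 3)
    have h := dcv.const_mul (Real.sin u)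
    simpa [fM, ee, hu, hv, hw] using h
  have g32 : grad (fun x => fM M x 3) x 2 = 0 := by
    apply grad_eq (hd 3)
    have h := hasDerivAt_const (0 : ℝ) (Real.sin u * Real.cos v)
    simpa [fM, ee, hu, hv, hw] using h
  have g33 : grad (fun x => fM M x 3) x 3 =
      Real.cos u * (M * Real.pi * deriv st (x 3)) * Real.cos v := by
    apply grad_eq (hd 3)
    have h := dsu.mul_const (Real.cos v)
    simpa [fM, ee, hu, hv, hw] using h
  have hcut : cut (fM M x) = Real.smoothTransition (1 - 8 * Real.sin u ^ 2) *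
      Real.smoothTransition (Real.cos u + 1 / 2) := by
    unfold cut
    have e : fM M x 1 ^ 2 + fM M x 2 ^ 2 + fM M x 3 ^ 2 = Real.sin u ^ 2 := by
      simp only [fM, Matrix.cons_val_one, Matrix.cons_val, ← hu, ← hv, ← hw]
      have h1 := Real.sin_sq_add_cos_sq v
      have h2 := Real.sin_sq_add_cos_sq w
      linear_combination (Real.sin u ^ 2 * Real.sin v ^ 2) * h2 + (Real.sin u ^ 2) * h1
    rw [e]
    rfl
  unfold field
  rw [hcut]
  simp only [cross, Matrix.cons_val_zero, g11, g12, g13, g21, g22, g23, g31, g32, g33]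
  have h1 := Real.sin_sq_add_cos_sq v
  have h2 := Real.sin_sq_add_cos_sq w
  have h1' : Real.cos v ^ 2 = 1 - Real.sin v ^ 2 := by linarith
  have h2' : Real.cos w ^ 2 = 1 - Real.sin w ^ 2 := by linarith
  ring_nf
  simp only [h1', h2']
  ring

/-- The integrand in the variable `u`. -/
def hfun (u : ℝ) : ℝ :=
  Real.smoothTransition (1 - 8 * Real.sin u ^ 2) * Real.smoothTransition (Real.cos u + 1 / 2) *
    Real.sin u ^ 2 * Real.cos u

lemma continuous_hfun : Continuous hfun := by
  unfold hfun
  have := Real.smoothTransition.continuous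
  fun_prop

lemma hfun_nonneg (u : ℝ) : 0 ≤ hfun u := by
  unfold hfun
  by_cases hc : 0 ≤ Real.cos u
  · have := Real.smoothTransition.nonneg (1 - 8 * Real.sin u ^ 2)
    have := Real.smoothTransition.nonneg (Real.cos u + 1 / 2)
    positivity
  · push Not at hc
    by_cases h : 1 - 8 * Real.sin u ^ 2 ≤ 0
    · rw [Real.smoothTransition.zero_of_nonpos h]
      simp
    · push Not at h
      have h1 := Real.sin_sq_add_cos_sq u
      have h2 : Real.cos u < -(1 / 2) := by nlinarith
      rw [Real.smoothTransition.zero_of_nonpos (x := Real.cos u + 1 / 2) (by linarith)]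
      simp

lemma hfun_even (u : ℝ) : hfun (-u) = hfun u := by
  simp [hfun]

lemma integral_hfun_pos {b : ℝ} (hb : 1 ≤ b) : 0 < ∫ u in (0 : ℝ)..b, hfun u := by
  have hint : ∀ a b : ℝ, IntervalIntegrable hfun volume a b := fun a b =>
    continuous_hfun.intervalIntegrable a b
  have h1 : 0 < ∫ u in (0 : ℝ)..(1 / 4), hfun u := by
    apply intervalIntegral.intervalIntegral_pos_of_pos_on (hint _ _) _ (by norm_num)
    intro u hu
    have hu0 : 0 < u := hu.1
    have hu1 : u < 1 / 4 := hu.2
    have hs0 : 0 < Real.sin u := Real.sin_pos_of_pos_of_lt_pi hu0 (by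
      have := Real.pi_gt_three
      linarith)
    have hs1 : Real.sin u < u := Real.sin_lt hu0
    have hc : 0 < Real.cos u := Real.cos_pos_of_mem_Ioo ⟨by
      have := Real.pi_gt_three
      linarith, by
      have := Real.pi_gt_three
      linarith⟩
    have p1 : 0 < Real.smoothTransition (1 - 8 * Real.sin u ^ 2) :=
      Real.smoothTransition.pos_of_pos (by nlinarith)
    have p2 : 0 < Real.smoothTransition (Real.cos u + 1 / 2) :=
      Real.smoothTransition.pos_of_pos (by linarith)
    unfold hfun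
    positivity
  have h2 : 0 ≤ ∫ u in (1 / 4 : ℝ)..b, hfun u :=
    intervalIntegral.integral_nonneg (by linarith) (fun u _ => hfun_nonneg u)
  have h3 := intervalIntegral.integral_add_adjacent_intervals (hint 0 (1 / 4)) (hint (1 / 4) b)
  rw [← h3]
  linarith

lemma integral_hfun_ne_zero {M : ℝ} (hM : 1 ≤ |M|) :
    ∫ u in (0 : ℝ)..(M * Real.pi), hfun u ≠ 0 := by
  have hpi := Real.pi_gt_three
  rcases le_or_gt 0 M with h | h
  · rw [abs_of_nonneg h] at hM
    exact (integral_hfun_pos (by nlinarith)).ne'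
  · rw [abs_of_neg h] at hM
    have h1 : ∫ u in (0 : ℝ)..(-(M * Real.pi)), hfun u
        = - ∫ u in (0 : ℝ)..(M * Real.pi), hfun u := by
      have h2 := intervalIntegral.integral_comp_neg (a := 0) (b := M * Real.pi) hfun
      simp only [hfun_even, neg_zero] at h2
      rw [h2, intervalIntegral.integral_symm]
    have h3 := integral_hfun_pos (b := -(M * Real.pi)) (by nlinarith)
    rw [h1] at h3
    intro h4
    rw [h4] at h3
    simp at h3

/-- The degree integral of `fM M` does not vanish for `|M| ≥ 1`. -/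
theorem integral_fM_ne_zero {M : ℝ} (hM : 1 ≤ |M|) :
    ∫ x in Icc (bl ∘ (0 : Fin 4).succAbove) (bu ∘ (0 : Fin 4).succAbove),
      field (fM M) ((0 : Fin 4).insertNth 2 x) 0 ≠ 0 := by
  let G : Fin 3 → ℝ → ℝ :=
    ![fun y => Real.sin (Real.pi * st y) * (Real.pi * deriv st y), fun _ => 2 * Real.pi,
      fun y => hfun (M * Real.pi * st y) * (M * Real.pi * deriv st y)]
  have hprod : ∀ x : Fin 3 → ℝ, field (fM M) ((0 : Fin 4).insertNth 2 x) 0 = ∏ i, G i (x i) := by
    intro x
    rw [field_fM, Fin.prod_univ_three]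
    have e1 : ((0 : Fin 4).insertNth 2 x : Fin 4 → ℝ) 1 = x 0 := rfl
    have e3 : ((0 : Fin 4).insertNth 2 x : Fin 4 → ℝ) 3 = x 2 := rfl
    rw [e1, e3]
    simp only [G, hfun, Matrix.cons_val_zero, Matrix.cons_val_one, Matrix.cons_val]
    ring
  simp only [hprod]
  have hset : Icc (bl ∘ (0 : Fin 4).succAbove) (bu ∘ (0 : Fin 4).succAbove)
      = Set.pi univ (fun i : Fin 3 => Icc ((bl ∘ (0 : Fin 4).succAbove) i)
        ((bu ∘ (0 : Fin 4).succAbove) i)) := (Set.pi_univ_Icc _ _).symm
  rw [hset, volume_pi, Measure.restrict_pi_pi, integral_fintype_prod_eq_prod, Fin.prod_univ_three]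
  have hcd : Continuous (deriv st) := contDiff_st.continuous_deriv (by simp)
  have I0 : ∫ x in Icc ((bl ∘ (0 : Fin 4).succAbove) (0 : Fin 3))
      ((bu ∘ (0 : Fin 4).succAbove) (0 : Fin 3)), G 0 x = 2 := by
    have e1 : (bl ∘ (0 : Fin 4).succAbove) (0 : Fin 3) = -1 := rfl
    have e2 : (bu ∘ (0 : Fin 4).succAbove) (0 : Fin 3) = 2 := rfl
    rw [e1, e2, integral_Icc_eq_integral_Ioc,
      ← intervalIntegral.integral_of_le (by norm_num : (-1 : ℝ) ≤ 2)]
    have h := intervalIntegral.integral_comp_mul_deriv (a := -1) (b := 2)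
      (f := fun y => Real.pi * st y) (f' := fun y => Real.pi * deriv st y) (g := Real.sin)
      (fun x _ => (hasDerivAt_st x).const_mul _) (by fun_prop) Real.continuous_sin
    have h' : ∫ x in (-1 : ℝ)..2, G 0 x = ∫ x in (Real.pi * st (-1))..(Real.pi * st 2),
        Real.sin x := h
    rw [h', st_of_nonpos (by norm_num), st_of_one_le (by norm_num), integral_sin]
    simp
    norm_num
  have I1 : ∫ x in Icc ((bl ∘ (0 : Fin 4).succAbove) (1 : Fin 3))
      ((bu ∘ (0 : Fin 4).succAbove) (1 : Fin 3)), G 1 x = 2 * Real.pi := by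
    have e1 : (bl ∘ (0 : Fin 4).succAbove) (1 : Fin 3) = 0 := rfl
    have e2 : (bu ∘ (0 : Fin 4).succAbove) (1 : Fin 3) = 1 := rfl
    rw [e1, e2]
    show ∫ x in Icc (0 : ℝ) 1, (2 * Real.pi) = 2 * Real.pi
    simp
  have I2 : ∫ x in Icc ((bl ∘ (0 : Fin 4).succAbove) (2 : Fin 3))
      ((bu ∘ (0 : Fin 4).succAbove) (2 : Fin 3)), G 2 x
      = ∫ u in (0 : ℝ)..(M * Real.pi), hfun u := by
    have e1 : (bl ∘ (0 : Fin 4).succAbove) (2 : Fin 3) = -1 := rfl
    have e2 : (bu ∘ (0 : Fin 4).succAbove) (2 : Fin 3) = 2 := rfl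
    rw [e1, e2, integral_Icc_eq_integral_Ioc,
      ← intervalIntegral.integral_of_le (by norm_num : (-1 : ℝ) ≤ 2)]
    have h := intervalIntegral.integral_comp_mul_deriv (a := -1) (b := 2)
      (f := fun y => M * Real.pi * st y) (f' := fun y => M * Real.pi * deriv st y) (g := hfun)
      (fun x _ => (hasDerivAt_st x).const_mul _) (by fun_prop) continuous_hfun
    have h' : ∫ x in (-1 : ℝ)..2, G 2 x = ∫ x in (M * Real.pi * st (-1))..(M * Real.pi * st 2),
        hfun x := h
    rw [h', st_of_nonpos (by norm_num), st_of_one_le (by norm_num)]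
    simp
  rw [I0, I1, I2]
  have := integral_hfun_ne_zero hM
  have := Real.pi_ne_zero
  positivity

end Pool.Agent.Work.MP_49f0e1_gt
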