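import Pool.Agent.Work.MP_49f0e1_gt.Quat
import Pool.Agent.Work.MP_49f0e1_gt.Eval

/-!
# The family of parallels of the sphere does not deform to constant curves

Construction of the homotopy of maps to `S³`.
-/

set_option linter.unusedSimpArgs false

noncomputable section

open Set Topology Metric
open scoped Quaternion ContDiff

namespace Pool.Agent.Work.MP_49f0e1_gt

abbrev II : Type := unitInterval

/-- Projection of the line to the unit interval. -/
def pr (t : ℝ) : II := Set.projIcc 0 1 zero_le_one t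

lemma continuous_pr : Continuous pr := continuous_projIcc (h := zero_le_one)

lemma pr_zero : pr 0 = 0 := Set.projIcc_left _
lemma pr_one : pr 1 = 1 := Set.projIcc_right _
lemma pr_coe {t : ℝ} (h : t ∈ Icc (0 : ℝ) 1) : ((pr t : II) : ℝ) = t := by
  unfold pr
  rw [Set.projIcc_of_mem _ h]

lemma dist_pr (t t' : ℝ) : dist (pr t) (pr t') ≤ |t - t'| := by
  have := LipschitzWith.projIcc (zero_le_one (α := ℝ)) |>.dist_le_mul t t'
  simpa [Real.dist_eq, pr] using this

lemma star_mul_self_of_norm {q : ℍ[ℝ]} (h : ‖q‖ = 1) : star q * q = 1 := by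
  rw [Quaternion.star_mul_self, Quaternion.normSq_eq_norm_mul_self, h]
  simp

lemma self_mul_star_of_norm {q : ℍ[ℝ]} (h : ‖q‖ = 1) : q * star q = 1 := by
  rw [Quaternion.self_mul_star, Quaternion.normSq_eq_norm_mul_self, h]
  simp

theorem exists_V (G : II × (S2 × II) → S2) (hG : Continuous G)
    (hcl : ∀ τ s, G (τ, (s, 0)) = G (τ, (s, 1)))
    (h0 : ∀ (s : S2) (t : II), (G (0, (s, t))).1 = rotz (2 * Real.pi * t) s.1)
    (h1 : ∀ (s : S2) (t : II), G (1, (s, t)) = G (1, (s, 0))) :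
    ∃ V : ℝ → S2 × ℝ → ℍ[ℝ], Continuous (fun p : ℝ × (S2 × ℝ) => V p.1 p.2) ∧
      (∀ τ y, ‖V τ y‖ = 1) ∧ (∀ τ s, V τ (s, 0) = 1) ∧ (∀ τ s, V τ (s, 1) = -1) ∧
      (∀ s t, V 0 (s, t) = ek t) ∧
      (∀ (s : S2), ∀ t ∈ Icc (0 : ℝ) 1, V 1 (s, t) * im3 s.1 = im3 s.1 * V 1 (s, t)) := by
  let g0 : II × (S2 × II) → ℍ[ℝ] := fun p => im3 (G p).1
  have hg0 : Continuous g0 := continuous_im3.comp (continuous_subtype_val.comp hG)
  let g : ℝ → S2 × ℝ → ℍ[ℝ] := fun τ y => g0 (pr τ, (y.1, pr y.2))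
  have hg : Continuous (fun p : ℝ × (S2 × ℝ) => g p.1 p.2) := by
    apply hg0.comp
    exact (continuous_pr.comp continuous_fst).prodMk
      ((continuous_fst.comp continuous_snd).prodMk
        (continuous_pr.comp (continuous_snd.comp continuous_snd)))
  have hU : ∀ τ y, g τ y * g τ y = -1 := fun τ y => im3_sq _
  have huc : UniformContinuous g0 := CompactSpace.uniformContinuous_of_continuous hg0
  rw [Metric.uniformContinuous_iff] at huc
  obtain ⟨δ, hδ, hδ'⟩ := huc 2 two_pos
  obtain ⟨n, hn⟩ := exists_nat_one_div_lt hδ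
  have hclose : ∀ (τ τ' : ℝ) (y : S2 × ℝ), |τ - τ'| ≤ 1 / ((n + 1 : ℕ) : ℝ) →
      ‖g τ y - g τ' y‖ < 2 := by
    intro τ τ' y h
    rw [← dist_eq_norm]
    apply hδ'
    rw [Prod.dist_eq, dist_self, max_eq_left dist_nonneg]
    refine (dist_pr _ _).trans_lt (h.trans_lt ?_)
    push_cast
    exact hn
  obtain ⟨R, hRc, hRn, hR0, hRcom, hRcl⟩ := exists_lift g hg hU (n + 1) (Nat.succ_pos n) hclose
  refine ⟨fun τ y => star (R τ (y.1, 0)) * R τ y * ek y.2, ?_, ?_, ?_, ?_, ?_, ?_⟩
  · have c1 : Continuous (fun p : ℝ × (S2 × ℝ) => R p.1 (p.2.1, 0)) :=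
      hRc.comp (continuous_fst.prodMk ((continuous_fst.comp continuous_snd).prodMk
        continuous_const))
    exact ((continuous_star.comp c1).mul hRc).mul
      (continuous_ek.comp (continuous_snd.comp continuous_snd))
  · intro τ y
    rw [norm_mul, norm_mul, norm_star, hRn, hRn, norm_ek]
    norm_num
  · intro τ s
    simp only
    rw [star_mul_self_of_norm (hRn _ _), ek_zero, one_mul]
  · intro τ s
    simp only
    have e : R τ (s, 0) = R τ (s, 1) := by
      apply hRcl
      intro τ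
      show im3 (G (pr τ, (s, pr 0))).1 = im3 (G (pr τ, (s, pr 1))).1
      rw [pr_zero, pr_one, hcl]
    rw [e, star_mul_self_of_norm (hRn _ _), ek_one, one_mul]
  · intro s t
    simp only [hR0, star_one, one_mul]
  · intro s t ht
    simp only
    have e1 := hRcom 1 ⟨zero_le_one, le_rfl⟩ (s, t)
    have e2 := hRcom 1 ⟨zero_le_one, le_rfl⟩ (s, 0)
    have e3 : g 1 (s, t) = g 1 (s, 0) := by
      show im3 (G (pr 1, (s, pr t))).1 = im3 (G (pr 1, (s, pr 0))).1
      rw [pr_one, pr_zero, h1]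
    have e4 : g 0 (s, 0) = im3 s.1 := by
      show im3 (G (pr 0, (s, pr 0))).1 = im3 s.1
      rw [pr_zero, h0]
      congr 1
      ext i
      fin_cases i <;> simp [rotz]
    have e5 : g 0 (s, t) * ek t = ek t * im3 s.1 := by
      show im3 (G (pr 0, (s, pr t))).1 * ek t = ek t * im3 s.1
      rw [pr_zero, h0, pr_coe ht, rotz_ek]
    have e6 : star (R 1 (s, 0)) * g 1 (s, 0) = g 0 (s, 0) * star (R 1 (s, 0)) := by
      calc star (R 1 (s, 0)) * g 1 (s, 0)
          = star (R 1 (s, 0)) * (g 1 (s, 0) * R 1 (s, 0)) * star (R 1 (s, 0)) := by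
            rw [mul_assoc, mul_assoc, self_mul_star_of_norm (hRn _ _), mul_one]
        _ = g 0 (s, 0) * star (R 1 (s, 0)) := by
            rw [← e2, ← mul_assoc, star_mul_self_of_norm (hRn _ _), one_mul]
    calc star (R 1 (s, 0)) * R 1 (s, t) * ek t * im3 s.1
        = star (R 1 (s, 0)) * (R 1 (s, t) * g 0 (s, t)) * ek t := by
          rw [mul_assoc, ← e5]
          noncomm_ring
      _ = (star (R 1 (s, 0)) * g 1 (s, 0)) * R 1 (s, t) * ek t := by
          rw [e1, e3]
          noncomm_ring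
      _ = im3 s.1 * (star (R 1 (s, 0)) * R 1 (s, t) * ek t) := by
          rw [e6, e4]
          noncomm_ring

/-- Lifting the angle. -/
theorem exists_angle (a b : S2 × ℝ → ℝ) (ha : Continuous a) (hb : Continuous b)
    (hab : ∀ s, ∀ t ∈ Icc (0 : ℝ) 1, a (s, t) ^ 2 + b (s, t) ^ 2 = 1)
    (ha0 : ∀ s, a (s, 0) = 1) :
    ∃ α : S2 × ℝ → ℝ, Continuous α ∧ (∀ s, α (s, 0) = 0) ∧
      ∀ s, ∀ t ∈ Icc (0 : ℝ) 1, a (s, t) = Real.cos (α (s, t)) ∧ b (s, t) = Real.sin (α (s, t)) := by
  let H : C(unitInterval × S2, Circle) :=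
    { toFun := fun p => ⟨⟨a (p.2, p.1), b (p.2, p.1)⟩, by
        apply mem_sphere_zero_iff_norm.2
        rw [← sq_eq_sq₀ (norm_nonneg _) zero_le_one, Complex.sq_norm, Complex.normSq_apply]
        have := hab p.2 p.1 p.1.2
        simp only
        linarith⟩
      continuous_toFun := by
        apply Continuous.subtype_mk
        have c : Continuous (fun p : unitInterval × S2 => ((p.2, (p.1 : ℝ)) : S2 × ℝ)) := by
          fun_prop
        have c1 := ha.comp c
        have c2 := hb.comp c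
        have e : (fun p : unitInterval × S2 => (⟨a (p.2, p.1), b (p.2, p.1)⟩ : ℂ)) =
            fun p : unitInterval × S2 => Complex.equivRealProdCLM.symm
              (a (p.2, p.1), b (p.2, p.1)) := by
          funext p
          apply Complex.ext <;> simp
        rw [e]
        exact Complex.equivRealProdCLM.symm.continuous.comp (c1.prodMk c2) }
  have H0 : ∀ s : S2, H (0, s) = Circle.exp ((ContinuousMap.const S2 (0 : ℝ)) s) := by
    intro s
    apply Subtype.ext
    have e1 := ha0 s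
    have e2 := hab s 0 ⟨le_rfl, zero_le_one⟩
    have e3 : b (s, 0) = 0 := by
      rw [e1] at e2
      nlinarith
    show (⟨a (s, ((0 : unitInterval) : ℝ)), b (s, ((0 : unitInterval) : ℝ))⟩ : ℂ) = _
    apply Complex.ext <;> simp [e1, e3]
  let L := Circle.isCoveringMap_exp.liftHomotopy H (ContinuousMap.const S2 (0 : ℝ)) H0
  have hL : ∀ p, Circle.exp (L p) = H p := fun p =>
    congrFun (Circle.isCoveringMap_exp.liftHomotopy_lifts H _ H0) p
  have hL0 : ∀ s, L (0, s) = 0 := fun s =>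
    Circle.isCoveringMap_exp.liftHomotopy_zero H _ H0 s
  refine ⟨fun p => L (pr p.2, p.1), ?_, ?_, ?_⟩
  · exact L.continuous.comp ((continuous_pr.comp continuous_snd).prodMk continuous_fst)
  · intro s
    simp only [pr_zero, hL0]
  · intro s t ht
    have h := congrArg (fun z : Circle => (z : ℂ)) (hL (pr t, s))
    have h' : Complex.exp (L (pr t, s) * Complex.I) = ⟨a (s, (pr t : ℝ)), b (s, (pr t : ℝ))⟩ := by
      rw [← Circle.coe_exp]
      exact h
    rw [pr_coe ht] at h'
    have hr := congrArg Complex.re h'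
    have hi := congrArg Complex.im h'
    rw [Complex.exp_ofReal_mul_I_re] at hr
    rw [Complex.exp_ofReal_mul_I_im] at hi
    exact ⟨hr.symm, hi.symm⟩

/-- A continuous function on the sphere with `cos = -1` is a constant odd multiple of `π`. -/
theorem const_odd (f : S2 → ℝ) (hf : Continuous f) (h : ∀ s, Real.cos (f s) = -1) :
    ∃ M : ℝ, 1 ≤ |M| ∧ ∀ s, f s = M * Real.pi := by
  have hodd : ∀ s, ∃ k : ℤ, f s = (2 * k + 1) * Real.pi := by
    intro s
    have h1 := h s
    have h2 : Real.cos (f s - Real.pi) = 1 := by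
      rw [Real.cos_sub_pi, h1, neg_neg]
    obtain ⟨k, hk⟩ := (Real.cos_eq_one_iff _).1 h2
    exact ⟨k, by linarith⟩
  have hconn : IsPreconnected (univ : Set S2) := by
    have : IsPreconnected (Metric.sphere (0 : EuclideanSpace ℝ (Fin 3)) 1) :=
      isPreconnected_sphere (by
        rw [rank_eq_card_basis (EuclideanSpace.basisFun (Fin 3) ℝ).toBasis]
        simp) 0 1
    exact Subtype.preconnectedSpace this |>.isPreconnected_univ
  have hle : ∀ s s', f s ≤ f s' → f s = f s' := by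
    intro s s' hss
    by_contra hne
    have hlt : f s < f s' := lt_of_le_of_ne hss hne
    obtain ⟨k, hk⟩ := hodd s
    obtain ⟨k', hk'⟩ := hodd s'
    have hkk : k + 1 ≤ k' := by
      have h3 : ((2 * k + 1 : ℝ)) * Real.pi < (2 * k' + 1) * Real.pi := by
        rw [← hk, ← hk']
        exact hlt
      have h4 : (2 * k + 1 : ℝ) < 2 * k' + 1 := lt_of_mul_lt_mul_right h3 Real.pi_pos.le
      have h5 : (k : ℝ) < k' := by linarith
      exact_mod_cast h5
    have hkk' : (k : ℝ) + 1 ≤ k' := by exact_mod_cast hkk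
    have hmem : f s + Real.pi ∈ Icc (f s) (f s') := by
      have := Real.pi_pos
      constructor
      · linarith
      · rw [hk, hk']
        nlinarith
    obtain ⟨s'', -, hs''⟩ := hconn.intermediate_value (mem_univ s) (mem_univ s')
      hf.continuousOn hmem
    have h6 := h s''
    have h6' := h s
    rw [hs'', Real.cos_add_pi, h6'] at h6
    norm_num at h6
  obtain ⟨k, hk⟩ := hodd north
  refine ⟨2 * k + 1, ?_, ?_⟩
  · have h1 : (1 : ℤ) ≤ |2 * k + 1| := by
      apply Int.one_le_abs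
      omega
    have h2 : ((1 : ℤ) : ℝ) ≤ ((|2 * k + 1| : ℤ) : ℝ) := by exact_mod_cast h1
    push_cast at h2
    exact h2
  · intro s
    rw [← hk]
    rcases le_total (f s) (f north) with h1 | h1
    · exact hle _ _ h1
    · exact (hle _ _ h1).symm

/-- Spherical coordinates. -/
def qq (x : Fin 4 → ℝ) : S2 :=
  ⟨!₂[Real.sin (Real.pi * st (x 1)) * Real.cos (2 * Real.pi * x 2),
    Real.sin (Real.pi * st (x 1)) * Real.sin (2 * Real.pi * x 2),
    Real.cos (Real.pi * st (x 1))], by
    rw [mem_sphere_zero_iff_norm, ← sq_eq_sq₀ (norm_nonneg _) zero_le_one,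
      EuclideanSpace.real_norm_sq_eq, Fin.sum_univ_three]
    simp
    have h1 := Real.sin_sq_add_cos_sq (Real.pi * st (x 1))
    have h2 := Real.sin_sq_add_cos_sq (2 * Real.pi * x 2)
    linear_combination (Real.sin (Real.pi * st (x 1)) ^ 2) * h2 + h1⟩

lemma continuous_qq : Continuous qq := by
  have hst : Continuous st := contDiff_st.continuous
  apply Continuous.subtype_mk
  apply (PiLp.continuous_toLp 2 (fun _ : Fin 3 => ℝ)).comp
  apply continuous_pi
  intro i
  fin_cases i
  · show Continuous (fun x : Fin 4 → ℝ =>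
      Real.sin (Real.pi * st (x 1)) * Real.cos (2 * Real.pi * x 2))
    fun_prop
  · show Continuous (fun x : Fin 4 → ℝ =>
      Real.sin (Real.pi * st (x 1)) * Real.sin (2 * Real.pi * x 2))
    fun_prop
  · show Continuous (fun x : Fin 4 → ℝ => Real.cos (Real.pi * st (x 1)))
    fun_prop

lemma qq_congr {x y : Fin 4 → ℝ} (h1 : x 1 = y 1)
    (h : (x 1 ≤ 0 ∨ 1 ≤ x 1) ∨ (∃ k : ℤ, y 2 = x 2 + k)) : qq x = qq y := by
  apply Subtype.ext
  unfold qq
  simp only
  rw [← h1]
  rcases h with (h | h) | ⟨k, hk⟩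
  · rw [st_of_nonpos h]
    simp
  · rw [st_of_one_le h]
    simp
  · rw [hk, mul_add]
    have e : 2 * Real.pi * x 2 + 2 * Real.pi * (k : ℝ)
        = 2 * Real.pi * x 2 + (k : ℝ) * (2 * Real.pi) := by ring
    rw [e, Real.cos_add_int_mul_two_pi, Real.sin_add_int_mul_two_pi]

/-- The components of a quaternion. -/
def comps (q : ℍ[ℝ]) : Fin 4 → ℝ := ![q.re, q.imI, q.imJ, q.imK]

lemma continuous_comps : Continuous comps := by
  apply continuous_pi
  intro i
  fin_cases i
  · exact Quaternion.continuous_re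
  · exact Quaternion.continuous_imI
  · exact Quaternion.continuous_imJ
  · exact Quaternion.continuous_imK

lemma comps_norm {q : ℍ[ℝ]} (h : ‖q‖ = 1) :
    comps q 0 ^ 2 + comps q 1 ^ 2 + comps q 2 ^ 2 + comps q 3 ^ 2 = 1 := by
  have h1 : Quaternion.normSq q = 1 := by
    rw [Quaternion.normSq_eq_norm_mul_self, h, one_mul]
  rw [Quaternion.normSq_def'] at h1
  simpa [comps] using h1

lemma comps_EE (M : ℝ) (x : Fin 4 → ℝ) :
    comps (EE (qq x).1 (M * Real.pi * st (x 3))) = fM M x := by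
  unfold comps fM
  rw [EE_re, EE_imI, EE_imJ, EE_imK]
  simp [qq]

/-- The family of parallels of the sphere does not deform to a family of constant curves, through
families of closed curves. -/
theorem no_contraction (G : II × (S2 × II) → S2) (hG : Continuous G)
    (hcl : ∀ τ s, G (τ, (s, 0)) = G (τ, (s, 1)))
    (h0 : ∀ (s : S2) (t : II), (G (0, (s, t))).1 = rotz (2 * Real.pi * t) s.1)
    (h1 : ∀ (s : S2) (t : II), G (1, (s, t)) = G (1, (s, 0))) : False := by
  obtain ⟨V, hVc, hVn, hV0, hV1, hVs, hVcom⟩ := exists_V G hG hcl h0 h1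
  have hV1c : Continuous (fun p : S2 × ℝ => V 1 p) :=
    hVc.comp (continuous_const.prodMk continuous_id)
  obtain ⟨α, hαc, hα0, hα⟩ := exists_angle (fun p => (V 1 p).re)
    (fun p => (V 1 p).imI * p.1.1 0 + (V 1 p).imJ * p.1.1 1 + (V 1 p).imK * p.1.1 2)
    (Quaternion.continuous_re.comp hV1c) (by
      have c0 : Continuous (fun p : S2 × ℝ => (V 1 p).imI) := Quaternion.continuous_imI.comp hV1c
      have c1 : Continuous (fun p : S2 × ℝ => (V 1 p).imJ) := Quaternion.continuous_imJ.comp hV1c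
      have c2 : Continuous (fun p : S2 × ℝ => (V 1 p).imK) := Quaternion.continuous_imK.comp hV1c
      fun_prop)
    (fun s t ht => norm_commute (hVcom s t ht) (hVn _ _))
    (fun s => by simp only [hV0]; rfl)
  have hVα : ∀ (s : S2), ∀ t ∈ Icc (0 : ℝ) 1, V 1 (s, t) = EE s.1 (α (s, t)) := by
    intro s t ht
    obtain ⟨e1, e2⟩ := hα s t ht
    simp only at e1 e2
    rw [commute_eq (hVcom s t ht), e1, e2]
    rfl
  obtain ⟨M, hM, hMα⟩ := const_odd (fun s => α (s, 1)) (hαc.comp (by fun_prop)) (by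
    intro s
    rw [← (hα s 1 ⟨zero_le_one, le_rfl⟩).1]
    simp only [hV1]
    simp)
  obtain ⟨W, hW⟩ : ∃ W : ℝ → S2 × ℝ → ℍ[ℝ], ∀ τ y, W τ y =
      V (min τ 1) y * EE y.1.1 (max (τ - 1) 0 * (M * Real.pi * y.2 - α y)) :=
    ⟨_, fun _ _ => rfl⟩
  have hWc : Continuous (fun p : ℝ × (S2 × ℝ) => W p.1 p.2) := by
    simp only [hW]
    have c1 : Continuous (fun p : ℝ × (S2 × ℝ) => V (min p.1 1) p.2) :=
      hVc.comp ((continuous_fst.min continuous_const).prodMk continuous_snd)
    have c2 : Continuous (fun p : ℝ × (S2 × ℝ) =>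
        ((p.2.1.1, max (p.1 - 1) 0 * (M * Real.pi * p.2.2 - α p.2)) :
          EuclideanSpace ℝ (Fin 3) × ℝ)) := by
      have c3 : Continuous (fun p : ℝ × (S2 × ℝ) => α p.2) := hαc.comp continuous_snd
      fun_prop
    have c4 := continuous_EE.comp c2
    have c5 : Continuous (fun p : ℝ × (S2 × ℝ) =>
        EE p.2.1.1 (max (p.1 - 1) 0 * (M * Real.pi * p.2.2 - α p.2))) := c4
    exact c1.mul c5
  have hWn : ∀ τ y, ‖W τ y‖ = 1 := by
    intro τ y
    rw [hW]
    have e := norm_mul (V (min τ 1) y) (EE y.1.1 (max (τ - 1) 0 * (M * Real.pi * y.2 - α y)))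
    rw [e, hVn, norm_EE, one_mul]
  have hWt0 : ∀ τ s, W τ (s, 0) = 1 := by
    intro τ s
    rw [hW, hV0, hα0]
    simp [EE_zero]
  have hWt1 : ∀ τ s, W τ (s, 1) = -1 := by
    intro τ s
    have e : α (s, 1) = M * Real.pi := hMα s
    rw [hW, hV1]
    simp only [e]
    simp [EE_zero]
  have hW0 : ∀ s t, W 0 (s, t) = ek t := by
    intro s t
    rw [hW]
    simp [hVs, EE_zero]
  have hW2 : ∀ (s : S2), ∀ t ∈ Icc (0 : ℝ) 1, W 2 (s, t) = EE s.1 (M * Real.pi * t) := by
    intro s t ht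
    rw [hW]
    have e1 : min (2 : ℝ) 1 = 1 := by norm_num
    have e2 : max ((2 : ℝ) - 1) 0 = 1 := by norm_num
    rw [e1, e2, hVα s t ht, EE_add]
    congr 1
    ring
  have hst : Continuous st := contDiff_st.continuous
  have hst01 : ∀ x, st x ∈ Icc (0 : ℝ) 1 := fun x =>
    ⟨Real.smoothTransition.nonneg x, Real.smoothTransition.le_one x⟩
  obtain ⟨Ψ, hΨ⟩ : ∃ Ψ : (Fin 4 → ℝ) → Fin 4 → ℝ,
      ∀ x, Ψ x = comps (W (2 * st (x 0)) (qq x, st (x 3))) := ⟨_, fun _ => rfl⟩
  have HD : HomData Ψ (fM M) := by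
    refine ⟨?_, contDiff_fM M, ?_, ?_, ?_, ?_, ?_⟩
    · have cq := continuous_qq
      have c1 : Continuous (fun x : Fin 4 → ℝ => ((2 * st (x 0), (qq x, st (x 3))) :
          ℝ × (S2 × ℝ))) := by fun_prop
      have c2 := continuous_comps.comp (hWc.comp c1)
      have e : Ψ = comps ∘ ((fun p : ℝ × (S2 × ℝ) => W p.1 p.2) ∘
        (fun x : Fin 4 → ℝ => ((2 * st (x 0), (qq x, st (x 3))) : ℝ × (S2 × ℝ)))) := funext hΨ
      rw [e]
      exact c2
    · intro x
      rw [hΨ]
      exact comps_norm (hWn _ _)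
    · intro x
      rw [hΨ, hΨ]
      have e0 : (x + ee 2) 0 = x 0 := by simp [ee]
      have e1 : (x + ee 2) 1 = x 1 := by simp [ee]
      have e2 : (x + ee 2) 2 = x 2 + 1 := by simp [ee]
      have e3 : (x + ee 2) 3 = x 3 := by simp [ee]
      have eq : qq (x + ee 2) = qq x := by
        symm
        apply qq_congr e1.symm
        right
        exact ⟨1, by rw [e2]; simp⟩
      rw [e0, e3, eq]
    · intro x hx u
      rw [hΨ, hΨ]
      have e0 : (x + u • ee 2) 0 = x 0 := by simp [ee]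
      have e1 : (x + u • ee 2) 1 = x 1 := by simp [ee]
      have e3 : (x + u • ee 2) 3 = x 3 := by simp [ee]
      rw [e0, e3]
      rcases hx with h | h | h | h | h
      · rw [st_of_nonpos h, mul_zero, hW0, hW0]
      · rw [qq_congr e1 (Or.inl (Or.inl (by rw [e1]; exact h)))]
      · rw [qq_congr e1 (Or.inl (Or.inr (by rw [e1]; exact h)))]
      · rw [st_of_nonpos h, hWt0, hWt0]
      · rw [st_of_one_le h, hWt1, hWt1]
    · intro x hx
      rw [hΨ, st_of_one_le hx, mul_one, hW2 _ _ (hst01 _), comps_EE]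
    · intro x u
      have e1 : (x + u • ee 0) 1 = x 1 := by simp [ee]
      have e2 : (x + u • ee 0) 2 = x 2 := by simp [ee]
      have e3 : (x + u • ee 0) 3 = x 3 := by simp [ee]
      unfold fM
      rw [e1, e2, e3]
  exact integral_fM_ne_zero hM HD.integral_eq_zero

end Pool.Agent.Work.MP_49f0e1_gt
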