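import Pool.Agent.Work.MP_49f0e1_gt.Defs

/-!
# Contracting the doubled family of parallels
-/

set_option linter.unusedSimpArgs false

noncomputable section

open Set MeasureTheory
open scoped ContDiff

namespace Pool.Agent.Work.MP_49f0e1_gt

/-- Rotation about the second axis. -/
def roty (φ : ℝ) (x : E3) : E3 :=
  !₂[Real.cos φ * x 0 + Real.sin φ * x 2, x 1, -Real.sin φ * x 0 + Real.cos φ * x 2]

/-- Infinitesimal rotation about the third axis. -/
def dz (x : E3) : E3 := !₂[-x 1, x 0, 0]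

lemma sq_norm_E3 (x : E3) : ‖x‖ ^ 2 = x 0 ^ 2 + x 1 ^ 2 + x 2 ^ 2 := by
  rw [EuclideanSpace.real_norm_sq_eq, Fin.sum_univ_three]

lemma rotz_0 (θ : ℝ) (x : E3) : rotz θ x 0 = Real.cos θ * x 0 - Real.sin θ * x 1 := rfl
lemma rotz_1 (θ : ℝ) (x : E3) : rotz θ x 1 = Real.sin θ * x 0 + Real.cos θ * x 1 := rfl
lemma rotz_2 (θ : ℝ) (x : E3) : rotz θ x 2 = x 2 := rfl
lemma roty_0 (φ : ℝ) (x : E3) : roty φ x 0 = Real.cos φ * x 0 + Real.sin φ * x 2 := rfl
lemma roty_1 (φ : ℝ) (x : E3) : roty φ x 1 = x 1 := rfl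
lemma roty_2 (φ : ℝ) (x : E3) : roty φ x 2 = -Real.sin φ * x 0 + Real.cos φ * x 2 := rfl
lemma dz_0 (x : E3) : dz x 0 = -x 1 := rfl
lemma dz_1 (x : E3) : dz x 1 = x 0 := rfl
lemma dz_2 (x : E3) : dz x 2 = 0 := rfl

lemma norm_rotz (θ : ℝ) (x : E3) : ‖rotz θ x‖ = ‖x‖ := by
  rw [← sq_eq_sq₀ (norm_nonneg _) (norm_nonneg _), sq_norm_E3, sq_norm_E3, rotz_0, rotz_1, rotz_2]
  linear_combination (x 0 ^ 2 + x 1 ^ 2) * Real.sin_sq_add_cos_sq θ

lemma norm_roty (φ : ℝ) (x : E3) : ‖roty φ x‖ = ‖x‖ := by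
  rw [← sq_eq_sq₀ (norm_nonneg _) (norm_nonneg _), sq_norm_E3, sq_norm_E3, roty_0, roty_1, roty_2]
  linear_combination (x 0 ^ 2 + x 2 ^ 2) * Real.sin_sq_add_cos_sq φ

lemma norm_dz_le (x : E3) : ‖dz x‖ ≤ ‖x‖ := by
  rw [← sq_le_sq₀ (norm_nonneg _) (norm_nonneg _), sq_norm_E3, sq_norm_E3, dz_0, dz_1, dz_2]
  nlinarith [sq_nonneg (x 2)]

/-- The deformation of the doubled family. -/
def HH (τ : ℝ) (s : E3) (t : ℝ) : E3 :=
  rotz (2 * Real.pi * t) (roty (Real.pi * τ) (rotz (2 * Real.pi * t) (roty (-(Real.pi * τ)) s)))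

/-- Its velocity. -/
def HV (τ : ℝ) (s : E3) (t : ℝ) : E3 :=
  (2 * Real.pi) • (dz (HH τ s t) + rotz (2 * Real.pi * t) (roty (Real.pi * τ)
    (dz (rotz (2 * Real.pi * t) (roty (-(Real.pi * τ)) s)))))

lemma E3_ext {x y : E3} (h0 : x 0 = y 0) (h1 : x 1 = y 1) (h2 : x 2 = y 2) : x = y := by
  ext i
  fin_cases i
  · exact h0
  · exact h1
  · exact h2

lemma hasDerivAt_E3 {f : ℝ → E3} {f' : E3} {t : ℝ} (h0 : HasDerivAt (fun u => f u 0) (f' 0) t)
    (h1 : HasDerivAt (fun u => f u 1) (f' 1) t) (h2 : HasDerivAt (fun u => f u 2) (f' 2) t) :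
    HasDerivAt f f' t := by
  have h : HasDerivAt (fun u => (f u).ofLp) f'.ofLp t := by
    rw [hasDerivAt_pi]
    intro i
    fin_cases i
    · exact h0
    · exact h1
    · exact h2
  have h3 := ((PiLp.continuousLinearEquiv 2 ℝ (fun _ : Fin 3 => ℝ)).symm.hasFDerivAt
    (x := (f t).ofLp)).comp_hasDerivAt t h
  exact h3

lemma hasDerivAt_comp_E3 {y : ℝ → E3} {y' : E3} {t : ℝ} (hy : HasDerivAt y y' t) (i : Fin 3) :
    HasDerivAt (fun u => y u i) (y' i) t :=
  (EuclideanSpace.proj (𝕜 := ℝ) (ι := Fin 3) i).hasFDerivAt (x := y t) |>.comp_hasDerivAt t hy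

lemma hasDerivAt_rotz {y : ℝ → E3} {y' : E3} {t : ℝ} (hy : HasDerivAt y y' t) :
    HasDerivAt (fun u => rotz (2 * Real.pi * u) (y u))
      ((2 * Real.pi) • dz (rotz (2 * Real.pi * t) (y t)) + rotz (2 * Real.pi * t) y') t := by
  have hθ : HasDerivAt (fun u : ℝ => 2 * Real.pi * u) (2 * Real.pi) t := by
    simpa using (hasDerivAt_id t).const_mul (2 * Real.pi)
  have h0 := hasDerivAt_comp_E3 hy 0
  have h1 := hasDerivAt_comp_E3 hy 1
  have h2 := hasDerivAt_comp_E3 hy 2
  apply hasDerivAt_E3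
  · refine ((hθ.cos.mul h0).sub (hθ.sin.mul h1)).congr_deriv ?_
    rw [PiLp.add_apply, PiLp.smul_apply, dz_0, rotz_0, rotz_1, smul_eq_mul]
    ring
  · refine ((hθ.sin.mul h0).add (hθ.cos.mul h1)).congr_deriv ?_
    rw [PiLp.add_apply, PiLp.smul_apply, dz_1, rotz_0, rotz_1, smul_eq_mul]
    ring
  · refine h2.congr_deriv ?_
    rw [PiLp.add_apply, PiLp.smul_apply, dz_2, rotz_2, smul_eq_mul]
    ring

lemma hasDerivAt_roty {y : ℝ → E3} {y' : E3} {t : ℝ} (φ : ℝ) (hy : HasDerivAt y y' t) :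
    HasDerivAt (fun u => roty φ (y u)) (roty φ y') t := by
  have hc := hasDerivAt_comp_E3 hy
  apply hasDerivAt_E3
  · exact ((hc 0).const_mul _).add ((hc 2).const_mul _)
  · exact hc 1
  · exact ((hc 0).const_mul _).add ((hc 2).const_mul _)

lemma rotz_smul (θ c : ℝ) (x : E3) : rotz θ (c • x) = c • rotz θ x := by
  apply E3_ext <;> simp [rotz] <;> ring

lemma roty_smul (θ c : ℝ) (x : E3) : roty θ (c • x) = c • roty θ x := by
  apply E3_ext <;> simp [roty] <;> ring

lemma rotz_zero (θ : ℝ) : rotz θ 0 = 0 := by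
  apply E3_ext <;> simp [rotz]

lemma hasDerivAt_HH (τ : ℝ) (s : E3) (t : ℝ) : HasDerivAt (HH τ s) (HV τ s t) t := by
  have h1 := hasDerivAt_rotz (hasDerivAt_const t (roty (-(Real.pi * τ)) s))
  have h2 := hasDerivAt_rotz (hasDerivAt_roty (Real.pi * τ) h1)
  refine HasDerivAt.congr_deriv (f := HH τ s) h2 ?_
  rw [rotz_zero, add_zero, roty_smul, rotz_smul, HV, smul_add]
  rfl

lemma norm_HV_le (τ : ℝ) {s : E3} (hs : ‖s‖ = 1) (t : ℝ) : ‖HV τ s t‖ ≤ 4 * Real.pi := by
  unfold HV
  rw [norm_smul, Real.norm_of_nonneg (by positivity)]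
  have h1 : ‖dz (HH τ s t)‖ ≤ 1 := by
    refine (norm_dz_le _).trans ?_
    unfold HH
    rw [norm_rotz, norm_roty, norm_rotz, norm_roty, hs]
  have h2 : ‖rotz (2 * Real.pi * t) (roty (Real.pi * τ)
    (dz (rotz (2 * Real.pi * t) (roty (-(Real.pi * τ)) s))))‖ ≤ 1 := by
    rw [norm_rotz, norm_roty]
    refine (norm_dz_le _).trans ?_
    rw [norm_rotz, norm_roty, hs]
  have h3 := norm_add_le (dz (HH τ s t)) (rotz (2 * Real.pi * t) (roty (Real.pi * τ)
    (dz (rotz (2 * Real.pi * t) (roty (-(Real.pi * τ)) s)))))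
  have hpi := Real.pi_pos
  nlinarith

lemma contDiff_rotz {n : ℕ∞} {f : ℝ → ℝ} {y : ℝ → E3} (hf : ContDiff ℝ n f) (hy : ContDiff ℝ n y) :
    ContDiff ℝ n (fun t => rotz (f t) (y t)) := by
  rw [contDiff_euclidean] at hy ⊢
  have h0 := hy 0
  have h1 := hy 1
  have h2 := hy 2
  intro i
  fin_cases i
  · exact ((hf.cos).mul h0).sub ((hf.sin).mul h1)
  · exact ((hf.sin).mul h0).add ((hf.cos).mul h1)
  · exact h2

lemma contDiff_roty {n : ℕ∞} (φ : ℝ) {y : ℝ → E3} (hy : ContDiff ℝ n y) :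
    ContDiff ℝ n (fun t => roty φ (y t)) := by
  rw [contDiff_euclidean] at hy ⊢
  have h0 := hy 0
  have h1 := hy 1
  have h2 := hy 2
  intro i
  fin_cases i
  · exact (contDiff_const.mul h0).add (contDiff_const.mul h2)
  · exact h1
  · exact (contDiff_const.mul h0).add (contDiff_const.mul h2)

lemma contDiff_HH (τ : ℝ) (s : E3) : ContDiff ℝ ∞ (HH τ s) := by
  unfold HH
  apply contDiff_rotz (by fun_prop)
  apply contDiff_roty
  apply contDiff_rotz (by fun_prop) contDiff_const

section Cont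

variable {X : Type*} [TopologicalSpace X] {f : X → ℝ} {g : X → E3} {h : X → ℝ}

lemma continuous_rotz (hf : Continuous f) (hg : Continuous g) :
    Continuous (fun x => rotz (f x) (g x)) := by
  have h0 : Continuous (fun x => g x 0) := by fun_prop
  have h1 : Continuous (fun x => g x 1) := by fun_prop
  have h2 : Continuous (fun x => g x 2) := by fun_prop
  apply (PiLp.continuous_toLp 2 (fun _ : Fin 3 => ℝ)).comp
  apply continuous_pi
  intro i
  fin_cases i
  · exact ((Real.continuous_cos.comp hf).mul h0).sub ((Real.continuous_sin.comp hf).mul h1)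
  · exact ((Real.continuous_sin.comp hf).mul h0).add ((Real.continuous_cos.comp hf).mul h1)
  · exact h2

lemma continuous_roty (hf : Continuous f) (hg : Continuous g) :
    Continuous (fun x => roty (f x) (g x)) := by
  have h0 : Continuous (fun x => g x 0) := by fun_prop
  have h1 : Continuous (fun x => g x 1) := by fun_prop
  have h2 : Continuous (fun x => g x 2) := by fun_prop
  apply (PiLp.continuous_toLp 2 (fun _ : Fin 3 => ℝ)).comp
  apply continuous_pi
  intro i
  fin_cases i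
  · exact ((Real.continuous_cos.comp hf).mul h0).add ((Real.continuous_sin.comp hf).mul h2)
  · exact h1
  · exact ((Real.continuous_sin.comp hf).neg.mul h0).add ((Real.continuous_cos.comp hf).mul h2)

lemma continuous_dz (hg : Continuous g) : Continuous (fun x => dz (g x)) := by
  have h0 : Continuous (fun x => g x 0) := by fun_prop
  have h1 : Continuous (fun x => g x 1) := by fun_prop
  apply (PiLp.continuous_toLp 2 (fun _ : Fin 3 => ℝ)).comp
  apply continuous_pi
  intro i
  fin_cases i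
  · exact h1.neg
  · exact h0
  · exact continuous_const

lemma continuous_HH (hf : Continuous f) (hg : Continuous g) (hh : Continuous h) :
    Continuous (fun x => HH (f x) (g x) (h x)) :=
  continuous_rotz (continuous_const.mul hh) (continuous_roty (continuous_const.mul hf)
    (continuous_rotz (continuous_const.mul hh) (continuous_roty (continuous_const.mul hf).neg hg)))

lemma continuous_HV (hf : Continuous f) (hg : Continuous g) (hh : Continuous h) :
    Continuous (fun x => HV (f x) (g x) (h x)) := by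
  have c1 : Continuous (fun x => dz (HH (f x) (g x) (h x))) := continuous_dz (continuous_HH hf hg hh)
  have c2 : Continuous (fun x => dz (rotz (2 * Real.pi * h x) (roty (-(Real.pi * f x)) (g x)))) :=
    continuous_dz (continuous_rotz (continuous_const.mul hh)
      (continuous_roty (continuous_const.mul hf).neg hg))
  have c3 : Continuous (fun x => rotz (2 * Real.pi * h x) (roty (Real.pi * f x)
      (dz (rotz (2 * Real.pi * h x) (roty (-(Real.pi * f x)) (g x)))))) :=
    continuous_rotz (continuous_const.mul hh) (continuous_roty (continuous_const.mul hf) c2)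
  have c4 : Continuous (fun x => dz (HH (f x) (g x) (h x)) +
      rotz (2 * Real.pi * h x) (roty (Real.pi * f x)
      (dz (rotz (2 * Real.pi * h x) (roty (-(Real.pi * f x)) (g x)))))) := by fun_prop
  have c5 := c4.const_smul (2 * Real.pi)
  exact c5

end Cont

lemma norm_HH (τ : ℝ) {s : E3} (hs : ‖s‖ = 1) (t : ℝ) : ‖HH τ s t‖ = 1 := by
  unfold HH
  rw [norm_rotz, norm_roty, norm_rotz, norm_roty, hs]

lemma rotz_per (x : E3) : rotz (2 * Real.pi * 1) x = rotz (2 * Real.pi * 0) x := by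
  unfold rotz
  simp

lemma HH_closed (τ : ℝ) (s : E3) : HH τ s 0 = HH τ s 1 := by
  unfold HH
  rw [rotz_per, rotz_per]

lemma piecewiseSmooth_of_contDiff {c : ℝ → E3} (h : ContDiff ℝ ∞ c) : PiecewiseSmooth c :=
  ⟨h.continuous.continuousOn, ∅, fun _ _ _ _ _ => h.contDiffOn⟩

lemma len_le {c c' : ℝ → E3} (h : ∀ t, HasDerivAt c (c' t) t) {B : ℝ} (hB : ∀ t, ‖c' t‖ ≤ B) :
    len c ≤ B := by
  unfold len
  have h1 : ∀ t, deriv c t = c' t := fun t => (h t).deriv
  simp only [h1]
  have h2 := intervalIntegral.norm_integral_le_of_norm_le_const (a := (0 : ℝ)) (b := 1)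
    (f := fun t => ‖c' t‖) (C := B) (fun t _ => by rw [norm_norm]; exact hB t)
  have h3 := (le_abs_self _).trans h2
  simpa using h3

lemma HH_zero (s : E3) (t : ℝ) : HH 0 s t = rotz (2 * Real.pi * (2 * t)) s := by
  unfold HH
  have e : 2 * Real.pi * (2 * t) = 2 * Real.pi * t + 2 * Real.pi * t := by ring
  rw [e]
  apply E3_ext <;> simp [rotz, roty, Real.cos_add, Real.sin_add] <;> ring

lemma HH_one (s : E3) (t : ℝ) : HH 1 s t = s := by
  unfold HH
  have h := Real.sin_sq_add_cos_sq (2 * Real.pi * t)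
  apply E3_ext
  · simp [rotz, roty]
    linear_combination (s 0) * h
  · simp [rotz, roty]
    linear_combination (s 1) * h
  · simp [rotz, roty]

lemma rotz_fract (s : E3) (u : ℝ) : rotz (2 * Real.pi * Int.fract u) s = rotz (2 * Real.pi * u) s := by
  have e : 2 * Real.pi * u = 2 * Real.pi * Int.fract u + (⌊u⌋ : ℝ) * (2 * Real.pi) := by
    have := Int.floor_add_fract u
    linear_combination (-(2 * Real.pi)) * this
  unfold rotz
  rw [e, Real.cos_add_int_mul_two_pi, Real.sin_add_int_mul_two_pi]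

lemma isClosedCurve_HH (τ : ℝ) (s : S2) : IsClosedCurve (HH τ s.1) :=
  ⟨piecewiseSmooth_of_contDiff (contDiff_HH τ s.1),
    fun t _ => norm_HH τ (mem_sphere_zero_iff_norm.1 s.2) t, HH_closed τ s.1⟩

theorem strongly_deforms (m : ℕ) {L : ℝ} (hL : 4 * Real.pi < L) :
    StronglyDeformsToPoints (fun p => multiple 2 (parallels m p)) L := by
  refine ⟨fun τ p t => HH τ p.1.1 t, ?_, ?_, ?_, ?_, ?_, ?_⟩
  · exact continuous_HH (by fun_prop) (by fun_prop) (by fun_prop)
  · have e : (fun p : ℝ × Param m × ℝ => deriv (fun t => HH p.1 p.2.1.1.1 t) p.2.2) =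
        fun p : ℝ × Param m × ℝ => HV p.1 p.2.1.1.1 p.2.2 := by
      funext p
      exact (hasDerivAt_HH _ _ _).deriv
    show Continuous (fun p : ℝ × Param m × ℝ => deriv (fun t => HH p.1 p.2.1.1.1 t) p.2.2)
    rw [e]
    exact continuous_HV (by fun_prop) (by fun_prop) (by fun_prop)
  · intro τ p
    exact contDiff_HH τ p.1.1
  · intro τ _ p
    exact ⟨isClosedCurve_HH τ p.1, (len_le (hasDerivAt_HH τ p.1.1)
      (norm_HV_le τ (mem_sphere_zero_iff_norm.1 p.1.2))).trans_lt hL⟩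
  · intro p t _
    show HH 0 p.1.1 t = rotz (2 * Real.pi * Int.fract ((2 : ℕ) * t)) p.1.1
    rw [rotz_fract, HH_zero]
    norm_num
  · intro p t _
    show HH 1 p.1.1 t = HH 1 p.1.1 0
    rw [HH_one, HH_one]

theorem StronglyDeformsToPoints.deforms {P : Type} [TopologicalSpace P] {γ : P → ℝ → E3} {L : ℝ}
    (h : StronglyDeformsToPoints γ L) : DeformsToPoints γ L := by
  obtain ⟨H, h1, h2, h3, h4, h5, h6⟩ := h
  exact ⟨H, h1.continuousOn, h4, h5, h6⟩

lemma hasDerivAt_parallels (m : ℕ) (p : Param m) (t : ℝ) :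
    HasDerivAt (parallels m p) ((2 * Real.pi) • dz (parallels m p t)) t := by
  have h := hasDerivAt_rotz (hasDerivAt_const t p.1.1)
  rw [rotz_zero, add_zero] at h
  exact h

lemma contDiff_parallels (m : ℕ) (p : Param m) : ContDiff ℝ ∞ (parallels m p) := by
  unfold parallels
  exact contDiff_rotz (by fun_prop) contDiff_const

lemma norm_parallels (m : ℕ) (p : Param m) (t : ℝ) : ‖parallels m p t‖ = 1 := by
  unfold parallels
  rw [norm_rotz]
  exact mem_sphere_zero_iff_norm.1 p.1.2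

theorem isFamily_parallels (m : ℕ) : IsFamily (parallels m) := by
  refine ⟨fun p => ⟨piecewiseSmooth_of_contDiff (contDiff_parallels m p),
    fun t _ => norm_parallels m p t, ?_⟩, ?_⟩
  · unfold parallels
    rw [rotz_per]
  · apply Continuous.continuousOn
    exact continuous_rotz (by fun_prop) (by fun_prop)

theorem len_parallels_le (m : ℕ) (p : Param m) : len (parallels m p) ≤ 2 * Real.pi := by
  apply len_le (hasDerivAt_parallels m p)
  intro t
  rw [norm_smul, Real.norm_of_nonneg (by positivity)]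
  have h1 := (norm_dz_le (parallels m p t)).trans_eq (norm_parallels m p t)
  have := Real.pi_pos
  nlinarith

end Pool.Agent.Work.MP_49f0e1_gt
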