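import Pool.Agent.Work.MP_49f0e1_gt.Lift
import Pool.Agent.Work.MP_49f0e1_gt.Positive

/-!
# The counterexample
-/

noncomputable section

open Set MeasureTheory
open scoped ContDiff

namespace Pool.Agent.Work.MP_49f0e1_gt

theorem not_deforms (m : ℕ) (L : ℝ) : ¬ DeformsToPoints (parallels m) L := by
  rintro ⟨H, hc, hcurve, h0, h1⟩
  let G : II × (S2 × II) → S2 := fun p => ⟨H p.1 (p.2.1, fun _ => 0) p.2.2, by
    rw [mem_sphere_zero_iff_norm]
    exact (hcurve p.1 p.1.2 _).1.2.1 _ p.2.2.2⟩
  have hG : Continuous G := by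
    apply Continuous.subtype_mk
    have c : Continuous (fun p : II × (S2 × II) =>
        (((p.1 : ℝ), ((p.2.1, fun _ => 0), (p.2.2 : ℝ))) : ℝ × Param m × ℝ)) := by fun_prop
    exact hc.comp_continuous c (fun p => ⟨p.1.2, mem_univ _, p.2.2.2⟩)
  apply no_contraction G hG
  · intro τ s
    apply Subtype.ext
    show H τ (s, fun _ => 0) ((0 : II) : ℝ) = H τ (s, fun _ => 0) ((1 : II) : ℝ)
    have := (hcurve τ τ.2 (s, fun _ => 0)).1.2.2
    simpa using this
  · intro s t
    show H ((0 : II) : ℝ) (s, fun _ => 0) (t : ℝ) = _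
    have := h0 (s, fun _ => 0) t t.2
    simpa [parallels] using this
  · intro s t
    apply Subtype.ext
    show H ((1 : II) : ℝ) (s, fun _ => 0) (t : ℝ) = H ((1 : II) : ℝ) (s, fun _ => 0) ((0 : II) : ℝ)
    have := h1 (s, fun _ => 0) t t.2
    simpa using this

theorem main (m : ℕ) {L : ℝ} (hL : 4 * Real.pi < L) :
    IsFamily (parallels m) ∧
    (∀ p, len (parallels m p) < L) ∧
    StronglyDeformsToPoints (fun p => multiple 2 (parallels m p)) L ∧
    DeformsToPoints (fun p => multiple 2 (parallels m p)) L ∧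
    ∀ L' : ℝ, ¬ DeformsToPoints (parallels m) L' := by
  refine ⟨isFamily_parallels m, fun p => (len_parallels_le m p).trans_lt ?_,
    strongly_deforms m hL, (strongly_deforms m hL).deforms, not_deforms m⟩
  have := Real.pi_pos
  linarith

end Pool.Agent.Work.MP_49f0e1_gt
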