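import Pool.Agent.Work.MP_49f0e1_gt.Defs

/-!
# Quaternion lifts

Unit imaginary quaternions (elements with `y * y = -1`), and lifting of homotopies of maps to the
sphere of unit imaginary quaternions to unit quaternions.
-/

set_option linter.unusedSimpArgs false

noncomputable section

open Set Topology Metric
open scoped Quaternion

namespace Pool.Agent.Work.MP_49f0e1_gt

lemma norm_of_sq {x : ℍ[ℝ]} (hx : x * x = -1) : ‖x‖ = 1 := by
  have h : ‖x‖ * ‖x‖ = 1 := by rw [← norm_mul, hx, norm_neg, norm_one]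
  nlinarith [norm_nonneg x]

/-- A unit quaternion conjugating `x` to `y`. -/
def rho (x y : ℍ[ℝ]) : ℍ[ℝ] := ‖1 - y * x‖⁻¹ • (1 - y * x)

lemma rho_mul {x y : ℍ[ℝ]} (hx : x * x = -1) (hy : y * y = -1) :
    rho x y * x = y * rho x y := by
  unfold rho
  rw [smul_mul_assoc, mul_smul_comm]
  congr 1
  rw [sub_mul, mul_sub, one_mul, mul_one, mul_assoc, hx, ← mul_assoc, hy]
  simp only [mul_neg, mul_one, neg_mul, one_mul, sub_neg_eq_add]
  abel

lemma norm_rho {x y : ℍ[ℝ]} (h : 1 - y * x ≠ 0) : ‖rho x y‖ = 1 := by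
  unfold rho
  rw [norm_smul, norm_inv, norm_norm, inv_mul_cancel₀ (norm_ne_zero_iff.2 h)]

lemma rho_self {x : ℍ[ℝ]} (hx : x * x = -1) : rho x x = 1 := by
  unfold rho
  rw [hx, sub_neg_eq_add]
  have h : (1 + 1 : ℍ[ℝ]) = (2 : ℝ) • (1 : ℍ[ℝ]) := by rw [two_smul]
  rw [h, norm_smul, norm_one, mul_one, Real.norm_ofNat, smul_smul, inv_mul_cancel₀ two_ne_zero,
    one_smul]

lemma one_sub_ne {x y : ℍ[ℝ]} (hx : x * x = -1) (h : ‖x - y‖ < 2) :
    1 - y * x ≠ 0 := by
  intro h0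
  have h1 : y * x = 1 := (sub_eq_zero.1 h0).symm
  have h2 : y = -x := by
    have h3 : y * (x * x) = x := by rw [← mul_assoc, h1, one_mul]
    rw [hx, mul_neg, mul_one] at h3
    rw [← h3, neg_neg]
  rw [h2, sub_neg_eq_add, ← two_smul ℝ x, norm_smul, norm_of_sq hx] at h
  norm_num at h

/-- Lifting a homotopy of maps to the sphere of unit imaginary quaternions. -/
theorem exists_lift {Y : Type*} [TopologicalSpace Y] (g : ℝ → Y → ℍ[ℝ])
    (hg : Continuous (fun p : ℝ × Y => g p.1 p.2)) (hU : ∀ τ y, g τ y * g τ y = -1)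
    (N : ℕ) (hN : 0 < N)
    (hclose : ∀ (τ τ' : ℝ) (y : Y), |τ - τ'| ≤ 1 / (N : ℝ) → ‖g τ y - g τ' y‖ < 2) :
    ∃ R : ℝ → Y → ℍ[ℝ], Continuous (fun p : ℝ × Y => R p.1 p.2) ∧ (∀ τ y, ‖R τ y‖ = 1) ∧
      (∀ y, R 0 y = 1) ∧ (∀ τ ∈ Icc (0 : ℝ) 1, ∀ y, R τ y * g 0 y = g τ y * R τ y) ∧
      (∀ y y', (∀ τ, g τ y = g τ y') → ∀ τ, R τ y = R τ y') := by
  have hN' : (0 : ℝ) < N := by exact_mod_cast hN
  have key : ∀ j : ℕ, ∃ R : ℝ → Y → ℍ[ℝ], Continuous (fun p : ℝ × Y => R p.1 p.2) ∧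
      (∀ τ y, ‖R τ y‖ = 1) ∧
      (∀ y, R 0 y = 1) ∧
      (∀ τ : ℝ, 0 ≤ τ → ∀ y, R τ y * g 0 y = g (min τ (j / N)) y * R τ y) ∧
      (∀ y y', (∀ τ, g τ y = g τ y') → ∀ τ, R τ y = R τ y') := by
    intro j
    induction j with
    | zero =>
      refine ⟨fun _ _ => 1, continuous_const, fun _ _ => norm_one, fun _ => rfl, ?_,
        fun _ _ _ _ => rfl⟩
      intro τ hτ y
      simp [hτ]
    | succ j ih =>
      obtain ⟨R, hc, hn, h0, hcom, hcl⟩ := ih
      have hne : ∀ τ y, 1 - g (min τ ((j + 1 : ℝ) / N)) y * g (min τ ((j : ℝ) / N)) y ≠ 0 := by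
        intro τ y
        apply one_sub_ne (hU _ _)
        apply hclose
        have h1 : |min τ ((j : ℝ) / N) - min τ ((j + 1 : ℝ) / N)| ≤ |(j : ℝ) / N - (j + 1 : ℝ) / N| := by
          have := abs_min_sub_min_le_max τ ((j : ℝ) / N) τ ((j + 1 : ℝ) / N)
          simpa using this
        refine h1.trans ?_
        rw [show (j : ℝ) / N - (j + 1 : ℝ) / N = -(1 / (N : ℝ)) by ring, abs_neg,
          abs_of_pos (by positivity)]
      refine ⟨fun τ y => rho (g (min τ ((j : ℝ) / N)) y) (g (min τ ((j + 1 : ℝ) / N)) y) * R τ y,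
        ?_, ?_, ?_, ?_, ?_⟩
      · apply Continuous.mul _ hc
        unfold rho
        have c1 : Continuous (fun p : ℝ × Y => g (min p.1 ((j : ℝ) / N)) p.2) :=
          hg.comp (by fun_prop : Continuous (fun p : ℝ × Y => (min p.1 ((j : ℝ) / N), p.2)))
        have c2 : Continuous (fun p : ℝ × Y => g (min p.1 ((j + 1 : ℝ) / N)) p.2) :=
          hg.comp (by fun_prop : Continuous (fun p : ℝ × Y => (min p.1 ((j + 1 : ℝ) / N), p.2)))
        have c3 : Continuous (fun p : ℝ × Y =>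
            1 - g (min p.1 ((j + 1 : ℝ) / N)) p.2 * g (min p.1 ((j : ℝ) / N)) p.2) :=
          continuous_const.sub (c2.mul c1)
        exact (c3.norm.inv₀ (fun p => norm_ne_zero_iff.2 (hne _ _))).smul c3
      · intro τ y
        rw [norm_mul, hn, norm_rho (hne τ y), one_mul]
      · intro y
        have e1 : min (0 : ℝ) ((j : ℝ) / N) = 0 := min_eq_left (by positivity)
        have e2 : min (0 : ℝ) ((j + 1 : ℝ) / N) = 0 := min_eq_left (by positivity)
        simp only [e1, e2, h0, mul_one]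
        exact rho_self (hU _ _)
      · intro τ hτ y
        push_cast
        rw [mul_assoc, hcom τ hτ y, ← mul_assoc, rho_mul (hU _ _) (hU _ _), mul_assoc]
      · intro y y' h τ
        simp only
        rw [hcl y y' h τ, h, h]
  obtain ⟨R, hc, hn, h0, hcom, hcl⟩ := key N
  refine ⟨R, hc, hn, h0, ?_, hcl⟩
  intro τ hτ y
  rw [hcom τ hτ.1 y, div_self hN'.ne', min_eq_left hτ.2]

/-- Imaginary quaternions from vectors. -/
def im3 : EuclideanSpace ℝ (Fin 3) →ₗ[ℝ] ℍ[ℝ] where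
  toFun x := ⟨0, x 0, x 1, x 2⟩
  map_add' x y := by
    ext
    exacts [(add_zero (0 : ℝ)).symm, rfl, rfl, rfl]
  map_smul' c x := by
    ext
    exacts [(mul_zero c).symm, rfl, rfl, rfl]

lemma im3_re (x : EuclideanSpace ℝ (Fin 3)) : (im3 x).re = 0 := rfl
lemma im3_imI (x : EuclideanSpace ℝ (Fin 3)) : (im3 x).imI = x 0 := rfl
lemma im3_imJ (x : EuclideanSpace ℝ (Fin 3)) : (im3 x).imJ = x 1 := rfl
lemma im3_imK (x : EuclideanSpace ℝ (Fin 3)) : (im3 x).imK = x 2 := rfl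

lemma continuous_im3 : Continuous im3 := im3.continuous_of_finiteDimensional

lemma S2.sum_sq (s : S2) : s.1 0 ^ 2 + s.1 1 ^ 2 + s.1 2 ^ 2 = 1 := by
  have h : ‖s.1‖ = 1 := mem_sphere_zero_iff_norm.1 s.2
  have h2 := EuclideanSpace.real_norm_sq_eq s.1
  rw [h, Fin.sum_univ_three] at h2
  linarith

lemma im3_sq (s : S2) : im3 s.1 * im3 s.1 = -1 := by
  have h := S2.sum_sq s
  ext <;> simp [im3_re, im3_imI, im3_imJ, im3_imK] <;> nlinarith

/-- The quaternion `exp (π t k)`. -/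
def ek (t : ℝ) : ℍ[ℝ] := ⟨Real.cos (Real.pi * t), 0, 0, Real.sin (Real.pi * t)⟩

/-- The element `cos u + sin u • s`. -/
def EE (s : EuclideanSpace ℝ (Fin 3)) (u : ℝ) : ℍ[ℝ] :=
  (Real.cos u : ℍ[ℝ]) + (Real.sin u) • im3 s

lemma ek_eq (t : ℝ) : ek t = EE (EuclideanSpace.single 2 1) (Real.pi * t) := by
  unfold ek EE
  ext <;> simp [im3_re, im3_imI, im3_imJ, im3_imK]

lemma EE_re (s : EuclideanSpace ℝ (Fin 3)) (u : ℝ) : (EE s u).re = Real.cos u := by
  simp [EE, im3_re]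
lemma EE_imI (s : EuclideanSpace ℝ (Fin 3)) (u : ℝ) : (EE s u).imI = Real.sin u * s 0 := by
  simp [EE, im3_imI]
lemma EE_imJ (s : EuclideanSpace ℝ (Fin 3)) (u : ℝ) : (EE s u).imJ = Real.sin u * s 1 := by
  simp [EE, im3_imJ]
lemma EE_imK (s : EuclideanSpace ℝ (Fin 3)) (u : ℝ) : (EE s u).imK = Real.sin u * s 2 := by
  simp [EE, im3_imK]

lemma EE_zero (s : EuclideanSpace ℝ (Fin 3)) : EE s 0 = 1 := by simp [EE]

lemma EE_add (s : S2) (u v : ℝ) : EE s.1 u * EE s.1 v = EE s.1 (u + v) := by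
  have h := S2.sum_sq s
  ext <;> simp only [Quaternion.re_mul, Quaternion.imI_mul, Quaternion.imJ_mul,
    Quaternion.imK_mul, EE_re, EE_imI, EE_imJ, EE_imK, Real.cos_add, Real.sin_add]
  · linear_combination (-(Real.sin u * Real.sin v)) * h
  · ring
  · ring
  · ring

lemma norm_EE (s : S2) (u : ℝ) : ‖EE s.1 u‖ = 1 := by
  have h := S2.sum_sq s
  have h1 : Quaternion.normSq (EE s.1 u) = 1 := by
    rw [Quaternion.normSq_def', EE_re, EE_imI, EE_imJ, EE_imK]
    linear_combination Real.sin u ^ 2 * h + Real.sin_sq_add_cos_sq u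
  rw [Quaternion.normSq_eq_norm_mul_self] at h1
  nlinarith [norm_nonneg (EE s.1 u)]

lemma continuous_EE : Continuous (fun p : EuclideanSpace ℝ (Fin 3) × ℝ => EE p.1 p.2) := by
  unfold EE
  have h1 : Continuous (fun p : EuclideanSpace ℝ (Fin 3) × ℝ => ((Real.cos p.2 : ℝ) : ℍ[ℝ])) :=
    Quaternion.continuous_coe.comp (Real.continuous_cos.comp continuous_snd)
  have h2 : Continuous (fun p : EuclideanSpace ℝ (Fin 3) × ℝ => (Real.sin p.2) • im3 p.1) :=
    Continuous.smul (Real.continuous_sin.comp continuous_snd) (continuous_im3.comp continuous_fst)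
  exact h1.add h2

/-- The north pole. -/
def north : S2 := ⟨EuclideanSpace.single 2 1, by simp⟩

lemma norm_ek (t : ℝ) : ‖ek t‖ = 1 := by
  rw [ek_eq]
  exact norm_EE north _

lemma continuous_ek : Continuous ek := by
  have h : ek = (fun p : EuclideanSpace ℝ (Fin 3) × ℝ => EE p.1 p.2) ∘
      (fun t : ℝ => (north.1, Real.pi * t)) := funext ek_eq
  rw [h]
  exact continuous_EE.comp (continuous_const.prodMk (continuous_const.mul continuous_id))

lemma ek_zero : ek 0 = 1 := by rw [ek_eq]; simp [EE]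
lemma ek_one : ek 1 = -1 := by rw [ek_eq]; simp [EE]

lemma rotz_ek (t : ℝ) (x : EuclideanSpace ℝ (Fin 3)) :
    im3 (rotz (2 * Real.pi * t) x) * ek t = ek t * im3 x := by
  have hc : Real.cos (2 * Real.pi * t) = Real.cos (Real.pi * t) ^ 2 - Real.sin (Real.pi * t) ^ 2 := by
    rw [show 2 * Real.pi * t = 2 * (Real.pi * t) by ring, Real.cos_two_mul, Real.sin_sq]; ring
  have hs : Real.sin (2 * Real.pi * t) = 2 * Real.sin (Real.pi * t) * Real.cos (Real.pi * t) := by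
    rw [show 2 * Real.pi * t = 2 * (Real.pi * t) by ring, Real.sin_two_mul]
  have h1 := Real.sin_sq_add_cos_sq (Real.pi * t)
  have r0 : (rotz (2 * Real.pi * t) x) 0 = Real.cos (2 * Real.pi * t) * x 0 -
    Real.sin (2 * Real.pi * t) * x 1 := rfl
  have r1 : (rotz (2 * Real.pi * t) x) 1 = Real.sin (2 * Real.pi * t) * x 0 +
    Real.cos (2 * Real.pi * t) * x 1 := rfl
  have r2 : (rotz (2 * Real.pi * t) x) 2 = x 2 := rfl
  have k0 : (ek t).re = Real.cos (Real.pi * t) := rfl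
  have k1 : (ek t).imI = 0 := rfl
  have k2 : (ek t).imJ = 0 := rfl
  have k3 : (ek t).imK = Real.sin (Real.pi * t) := rfl
  ext <;> simp only [Quaternion.re_mul, Quaternion.imI_mul, Quaternion.imJ_mul,
    Quaternion.imK_mul, im3_re, im3_imI, im3_imJ, im3_imK, r0, r1, r2, k0, k1, k2, k3, hc, hs]
  · ring
  · set c := Real.cos (Real.pi * t)
    set s := Real.sin (Real.pi * t)
    linear_combination (c * x 0 - s * x 1) * h1
  · set c := Real.cos (Real.pi * t)
    set s := Real.sin (Real.pi * t)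
    linear_combination (c * x 1 + s * x 0) * h1
  · ring

/-- A unit quaternion commuting with the unit imaginary quaternion `s` lies in its circle. -/
lemma commute_eq {s : S2} {q : ℍ[ℝ]} (h : q * im3 s.1 = im3 s.1 * q) :
    q = (q.re : ℍ[ℝ]) + (q.imI * s.1 0 + q.imJ * s.1 1 + q.imK * s.1 2) • im3 s.1 := by
  have hs := S2.sum_sq s
  have hI := congrArg (fun q : ℍ[ℝ] => q.imI) h
  have hJ := congrArg (fun q : ℍ[ℝ] => q.imJ) h
  have hK := congrArg (fun q : ℍ[ℝ] => q.imK) h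
  simp only [Quaternion.re_mul, Quaternion.imI_mul, Quaternion.imJ_mul,
    Quaternion.imK_mul, im3_re, im3_imI, im3_imJ, im3_imK] at hI hJ hK
  ext
  · simp [im3_re]
  · simp [im3_imI]
    linear_combination (-q.imI) * hs + (s.1 1) / 2 * hK - (s.1 2) / 2 * hJ
  · simp [im3_imJ]
    linear_combination (-q.imJ) * hs + (s.1 2) / 2 * hI - (s.1 0) / 2 * hK
  · simp [im3_imK]
    linear_combination (-q.imK) * hs + (s.1 0) / 2 * hJ - (s.1 1) / 2 * hI

lemma norm_commute {s : S2} {q : ℍ[ℝ]} (h : q * im3 s.1 = im3 s.1 * q) (hq : ‖q‖ = 1) :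
    q.re ^ 2 + (q.imI * s.1 0 + q.imJ * s.1 1 + q.imK * s.1 2) ^ 2 = 1 := by
  have hs := S2.sum_sq s
  have h1 : Quaternion.normSq q = 1 := by
    rw [Quaternion.normSq_eq_norm_mul_self, hq, one_mul]
  have h2 := commute_eq h
  set w := q.imI * s.1 0 + q.imJ * s.1 1 + q.imK * s.1 2
  have hI := congrArg (fun q : ℍ[ℝ] => q.imI) h2
  have hJ := congrArg (fun q : ℍ[ℝ] => q.imJ) h2
  have hK := congrArg (fun q : ℍ[ℝ] => q.imK) h2
  simp [im3_re, im3_imI, im3_imJ, im3_imK] at hI hJ hK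
  rw [Quaternion.normSq_def', hI, hJ, hK] at h1
  linear_combination h1 - w ^ 2 * hs

end Pool.Agent.Work.MP_49f0e1_gt
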