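import Mathlib

/-!
# A degree-type integral identity

For a smooth map `F : ℝ⁴ → ℝ⁴` which stays away from `0`, the vector field
`G (F x) • (∇F₁ × ∇F₂ × ∇F₃)`, where `G` is a cut-off function near the positive `F₀` axis, is
divergence free.
-/

set_option linter.unusedSimpArgs false

noncomputable section

open Set MeasureTheory Topology
open scoped ContDiff

namespace Pool.Agent.Work.MP_49f0e1_gt

/-- The generalised cross product of three vectors of `ℝ⁴`. -/
def cross (p q r : Fin 4 → ℝ) : Fin 4 → ℝ :=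
  ![p 1 * (q 2 * r 3 - q 3 * r 2) - p 2 * (q 1 * r 3 - q 3 * r 1)
      + p 3 * (q 1 * r 2 - q 2 * r 1),
    -(p 0 * (q 2 * r 3 - q 3 * r 2) - p 2 * (q 0 * r 3 - q 3 * r 0)
      + p 3 * (q 0 * r 2 - q 2 * r 0)),
    p 0 * (q 1 * r 3 - q 3 * r 1) - p 1 * (q 0 * r 3 - q 3 * r 0)
      + p 3 * (q 0 * r 1 - q 1 * r 0),
    -(p 0 * (q 1 * r 2 - q 2 * r 1) - p 1 * (q 0 * r 2 - q 2 * r 0)
      + p 2 * (q 0 * r 1 - q 1 * r 0))]

lemma cross_orth₁ (p q r : Fin 4 → ℝ) : ∑ i, p i * cross p q r i = 0 := by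
  simp only [Fin.sum_univ_four, cross, Matrix.cons_val_zero, Matrix.cons_val_one,
    Matrix.cons_val]
  ring

lemma cross_orth₂ (p q r : Fin 4 → ℝ) : ∑ i, q i * cross p q r i = 0 := by
  simp only [Fin.sum_univ_four, cross, Matrix.cons_val_zero, Matrix.cons_val_one,
    Matrix.cons_val]
  ring

lemma cross_orth₃ (p q r : Fin 4 → ℝ) : ∑ i, r i * cross p q r i = 0 := by
  simp only [Fin.sum_univ_four, cross, Matrix.cons_val_zero, Matrix.cons_val_one,
    Matrix.cons_val]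
  ring

lemma cross_symm₁ (S : Fin 4 → Fin 4 → ℝ) (hS : ∀ i j, S i j = S j i) (q r : Fin 4 → ℝ) :
    ∑ i, cross (S i) q r i = 0 := by
  simp only [Fin.sum_univ_four, cross, Matrix.cons_val_zero, Matrix.cons_val_one,
    Matrix.cons_val]
  rw [hS 1 0, hS 2 0, hS 2 1, hS 3 0, hS 3 1, hS 3 2]
  ring

lemma cross_symm₂ (S : Fin 4 → Fin 4 → ℝ) (hS : ∀ i j, S i j = S j i) (p r : Fin 4 → ℝ) :
    ∑ i, cross p (S i) r i = 0 := by
  simp only [Fin.sum_univ_four, cross, Matrix.cons_val_zero, Matrix.cons_val_one,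
    Matrix.cons_val]
  rw [hS 1 0, hS 2 0, hS 2 1, hS 3 0, hS 3 1, hS 3 2]
  ring

lemma cross_symm₃ (S : Fin 4 → Fin 4 → ℝ) (hS : ∀ i j, S i j = S j i) (p q : Fin 4 → ℝ) :
    ∑ i, cross p q (S i) i = 0 := by
  simp only [Fin.sum_univ_four, cross, Matrix.cons_val_zero, Matrix.cons_val_one,
    Matrix.cons_val]
  rw [hS 1 0, hS 2 0, hS 2 1, hS 3 0, hS 3 1, hS 3 2]
  ring

/-- If one of the coordinates `j ≠ i` of all three vectors vanishes, so does the `i`-th
coordinate of the cross product. -/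
lemma cross_eq_zero (p q r : Fin 4 → ℝ) (i j : Fin 4) (hij : i ≠ j)
    (hp : p j = 0) (hq : q j = 0) (hr : r j = 0) : cross p q r i = 0 := by
  fin_cases i <;> fin_cases j <;> simp_all [cross]

lemma hasDerivAt_cross {p q r : ℝ → Fin 4 → ℝ} {p' q' r' : Fin 4 → ℝ} {t : ℝ}
    (hp : HasDerivAt p p' t) (hq : HasDerivAt q q' t) (hr : HasDerivAt r r' t) (i : Fin 4) :
    HasDerivAt (fun u => cross (p u) (q u) (r u) i)
      (cross p' (q t) (r t) i + cross (p t) q' (r t) i + cross (p t) (q t) r' i) t := by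
  have P := fun j => (hasDerivAt_pi.1 hp) j
  have Q := fun j => (hasDerivAt_pi.1 hq) j
  have R := fun j => (hasDerivAt_pi.1 hr) j
  fin_cases i
  · show HasDerivAt (fun u => p u 1 * (q u 2 * r u 3 - q u 3 * r u 2)
      - p u 2 * (q u 1 * r u 3 - q u 3 * r u 1) + p u 3 * (q u 1 * r u 2 - q u 2 * r u 1)) _ t
    have h := (((P 1).mul (((Q 2).mul (R 3)).sub ((Q 3).mul (R 2)))).sub
      ((P 2).mul (((Q 1).mul (R 3)).sub ((Q 3).mul (R 1))))).add
      ((P 3).mul (((Q 1).mul (R 2)).sub ((Q 2).mul (R 1))))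
    refine h.congr_deriv ?_
    simp only [cross, Pi.sub_apply, Pi.mul_apply, Fin.zero_eta, Fin.mk_one, Fin.reduceFinMk,
      Matrix.cons_val_zero,
      Matrix.cons_val_one, Matrix.cons_val]
    ring
  · show HasDerivAt (fun u => -(p u 0 * (q u 2 * r u 3 - q u 3 * r u 2)
      - p u 2 * (q u 0 * r u 3 - q u 3 * r u 0) + p u 3 * (q u 0 * r u 2 - q u 2 * r u 0))) _ t
    have h := ((((P 0).mul (((Q 2).mul (R 3)).sub ((Q 3).mul (R 2)))).sub
      ((P 2).mul (((Q 0).mul (R 3)).sub ((Q 3).mul (R 0))))).add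
      ((P 3).mul (((Q 0).mul (R 2)).sub ((Q 2).mul (R 0))))).neg
    refine h.congr_deriv ?_
    simp only [cross, Pi.sub_apply, Pi.mul_apply, Fin.zero_eta, Fin.mk_one, Fin.reduceFinMk,
      Matrix.cons_val_zero,
      Matrix.cons_val_one, Matrix.cons_val]
    ring
  · show HasDerivAt (fun u => p u 0 * (q u 1 * r u 3 - q u 3 * r u 1)
      - p u 1 * (q u 0 * r u 3 - q u 3 * r u 0) + p u 3 * (q u 0 * r u 1 - q u 1 * r u 0)) _ t
    have h := (((P 0).mul (((Q 1).mul (R 3)).sub ((Q 3).mul (R 1)))).sub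
      ((P 1).mul (((Q 0).mul (R 3)).sub ((Q 3).mul (R 0))))).add
      ((P 3).mul (((Q 0).mul (R 1)).sub ((Q 1).mul (R 0))))
    refine h.congr_deriv ?_
    simp only [cross, Pi.sub_apply, Pi.mul_apply, Fin.zero_eta, Fin.mk_one, Fin.reduceFinMk,
      Matrix.cons_val_zero,
      Matrix.cons_val_one, Matrix.cons_val]
    ring
  · show HasDerivAt (fun u => -(p u 0 * (q u 1 * r u 2 - q u 2 * r u 1)
      - p u 1 * (q u 0 * r u 2 - q u 2 * r u 0) + p u 2 * (q u 0 * r u 1 - q u 1 * r u 0))) _ t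
    have h := ((((P 0).mul (((Q 1).mul (R 2)).sub ((Q 2).mul (R 1)))).sub
      ((P 1).mul (((Q 0).mul (R 2)).sub ((Q 2).mul (R 0))))).add
      ((P 2).mul (((Q 0).mul (R 1)).sub ((Q 1).mul (R 0))))).neg
    refine h.congr_deriv ?_
    simp only [cross, Pi.sub_apply, Pi.mul_apply, Fin.zero_eta, Fin.mk_one, Fin.reduceFinMk,
      Matrix.cons_val_zero,
      Matrix.cons_val_one, Matrix.cons_val]
    ring

/-- Standard basis vectors. -/
abbrev ee (i : Fin 4) : Fin 4 → ℝ := Pi.single i 1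

/-- The gradient of a function on `ℝ⁴`. -/
def grad (f : (Fin 4 → ℝ) → ℝ) (x : Fin 4 → ℝ) : Fin 4 → ℝ := fun j => fderiv ℝ f x (ee j)

/-- The Hessian matrix. -/
def hess (f : (Fin 4 → ℝ) → ℝ) (x : Fin 4 → ℝ) (i j : Fin 4) : ℝ :=
  fderiv ℝ (fderiv ℝ f) x (ee i) (ee j)

lemma hess_symm {f : (Fin 4 → ℝ) → ℝ} (hf : ContDiff ℝ ∞ f) (x : Fin 4 → ℝ) (i j : Fin 4) :
    hess f x i j = hess f x j i := by
  have h : IsSymmSndFDerivAt ℝ f x :=
    (hf.contDiffAt (x := x)).isSymmSndFDerivAt (by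
      simp only [minSmoothness_of_isRCLikeNormedField]
      exact WithTop.coe_le_coe.2 le_top)
  exact h (ee i) (ee j)

lemma hasDerivAt_grad {f : (Fin 4 → ℝ) → ℝ} (hf : ContDiff ℝ ∞ f) (x : Fin 4 → ℝ) (i : Fin 4) :
    HasDerivAt (fun u : ℝ => grad f (x + u • ee i)) (hess f x i) 0 := by
  rw [hasDerivAt_pi]
  intro j
  have h1 : ContDiff ℝ 1 (fderiv ℝ f) := hf.fderiv_right (m := 1)
    (by norm_num; exact WithTop.coe_le_coe.2 le_top)
  have h2 : HasFDerivAt (fderiv ℝ f) (fderiv ℝ (fderiv ℝ f) x) x :=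
    ((h1.differentiable one_ne_zero) x).hasFDerivAt
  have h3 : HasDerivAt (fun u : ℝ => fderiv ℝ f (x + u • ee i))
      (fderiv ℝ (fderiv ℝ f) x (ee i)) 0 := h2.hasLineDerivAt (ee i)
  exact (ContinuousLinearMap.apply ℝ ℝ (ee j)).hasFDerivAt.comp_hasDerivAt 0 h3

lemma contDiff_grad {f : (Fin 4 → ℝ) → ℝ} (hf : ContDiff ℝ ∞ f) : ContDiff ℝ ∞ (grad f) := by
  rw [contDiff_pi]
  intro j
  have h1 : ContDiff ℝ ∞ (fderiv ℝ f) := hf.fderiv_right (m := ∞) (by simp)
  exact h1.clm_apply contDiff_const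

/-- The cut-off function: it is supported near the positive `y 0` axis and, on the region
`|y|² ≥ 9/16`, its derivative in the direction `y 0` vanishes. -/
def cut (y : Fin 4 → ℝ) : ℝ :=
  Real.smoothTransition (1 - 8 * (y 1 ^ 2 + y 2 ^ 2 + y 3 ^ 2)) *
    Real.smoothTransition (y 0 + 1 / 2)

lemma cut_nonneg (y : Fin 4 → ℝ) : 0 ≤ cut y :=
  mul_nonneg (Real.smoothTransition.nonneg _) (Real.smoothTransition.nonneg _)

lemma contDiff_cut : ContDiff ℝ ∞ cut := by
  unfold cut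
  refine ContDiff.mul ?_ ?_
  · exact Real.smoothTransition.contDiff.comp (by fun_prop)
  · exact Real.smoothTransition.contDiff.comp (by fun_prop)

/-- On `|y|² ≥ 9/16` the derivative of the cut-off function only involves `dy 1, dy 2, dy 3`. -/
lemma fderiv_cut (y : Fin 4 → ℝ) (hy : 9 / 16 ≤ y 0 ^ 2 + y 1 ^ 2 + y 2 ^ 2 + y 3 ^ 2) :
    ∃ c₁ c₂ c₃ : ℝ, ∀ v : Fin 4 → ℝ, fderiv ℝ cut y v = c₁ * v 1 + c₂ * v 2 + c₃ * v 3 := by
  refine ⟨fderiv ℝ cut y (ee 1), fderiv ℝ cut y (ee 2), fderiv ℝ cut y (ee 3), fun v => ?_⟩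
  have hv : v = v 0 • ee 0 + v 1 • ee 1 + v 2 • ee 2 + v 3 • ee 3 := by
    ext i
    fin_cases i <;> simp [ee]
  have h0 : fderiv ℝ cut y (ee 0) = 0 := by
    have hd : HasFDerivAt cut (fderiv ℝ cut y) y :=
      ((contDiff_cut.differentiable (by simp)) y).hasFDerivAt
    have hl : HasDerivAt (fun u : ℝ => cut (y + u • ee 0)) (fderiv ℝ cut y (ee 0)) 0 :=
      hd.hasLineDerivAt (ee 0)
    have hfun : (fun u : ℝ => cut (y + u • ee 0)) = fun u : ℝ =>
        Real.smoothTransition (1 - 8 * (y 1 ^ 2 + y 2 ^ 2 + y 3 ^ 2)) *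
          Real.smoothTransition (y 0 + u + 1 / 2) := by
      ext u
      simp [cut, ee]
    rw [hfun] at hl
    by_cases h1 : 1 - 8 * (y 1 ^ 2 + y 2 ^ 2 + y 3 ^ 2) ≤ 0
    · simp only [Real.smoothTransition.zero_of_nonpos h1, zero_mul] at hl
      exact hl.unique (hasDerivAt_const _ _)
    · push Not at h1
      have h2 : 1 / 2 < |y 0| := by
        by_contra hcon
        push Not at hcon
        have : y 0 ^ 2 ≤ (1 / 2) ^ 2 := by
          rw [← sq_abs]
          exact pow_le_pow_left₀ (abs_nonneg _) hcon 2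
        nlinarith
      have hloc : (fun u : ℝ =>
          Real.smoothTransition (1 - 8 * (y 1 ^ 2 + y 2 ^ 2 + y 3 ^ 2)) *
          Real.smoothTransition (y 0 + u + 1 / 2)) =ᶠ[𝓝 0] fun _ =>
          Real.smoothTransition (1 - 8 * (y 1 ^ 2 + y 2 ^ 2 + y 3 ^ 2)) *
          Real.smoothTransition (y 0 + 1 / 2) := by
        rcases lt_or_ge 0 (y 0) with hpos | hneg
        · rw [abs_of_pos hpos] at h2
          have : ∀ᶠ u : ℝ in 𝓝 0, -(y 0 - 1 / 2) < u := by
            apply lt_mem_nhds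
            linarith
          filter_upwards [this] with u hu
          rw [Real.smoothTransition.one_of_one_le (x := y 0 + u + 1 / 2) (by linarith),
            Real.smoothTransition.one_of_one_le (x := y 0 + 1 / 2) (by linarith)]
        · rw [abs_of_nonpos hneg] at h2
          have : ∀ᶠ u : ℝ in 𝓝 0, u < -(y 0 + 1 / 2) := by
            apply gt_mem_nhds
            linarith
          filter_upwards [this] with u hu
          rw [Real.smoothTransition.zero_of_nonpos (x := y 0 + u + 1 / 2) (by linarith),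
            Real.smoothTransition.zero_of_nonpos (x := y 0 + 1 / 2) (by linarith)]
      exact hl.unique ((hasDerivAt_const _ _).congr_of_eventuallyEq hloc)
  conv_lhs => rw [hv]
  simp only [map_add, map_smul, h0, smul_eq_mul]
  ring

/-- The vector field `cut (F x) • (∇F₁ × ∇F₂ × ∇F₃)`. -/
def field (F : (Fin 4 → ℝ) → Fin 4 → ℝ) (x : Fin 4 → ℝ) : Fin 4 → ℝ := fun i =>
  cut (F x) * cross (grad (fun x => F x 1) x) (grad (fun x => F x 2) x)
    (grad (fun x => F x 3) x) i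

lemma contDiff_comp {F : (Fin 4 → ℝ) → Fin 4 → ℝ} (hF : ContDiff ℝ ∞ F) (a : Fin 4) :
    ContDiff ℝ ∞ (fun x => F x a) := (contDiff_pi.1 hF) a

lemma contDiff_field {F : (Fin 4 → ℝ) → Fin 4 → ℝ} (hF : ContDiff ℝ ∞ F) :
    ContDiff ℝ ∞ (field F) := by
  rw [contDiff_pi]
  intro i
  have h1 := fun j => (contDiff_pi.1 (contDiff_grad (contDiff_comp hF 1))) j
  have h2 := fun j => (contDiff_pi.1 (contDiff_grad (contDiff_comp hF 2))) j
  have h3 := fun j => (contDiff_pi.1 (contDiff_grad (contDiff_comp hF 3))) j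
  refine ContDiff.mul (contDiff_cut.comp hF) ?_
  fin_cases i <;> simp only [cross, Fin.zero_eta, Fin.mk_one, Fin.reduceFinMk,
    Matrix.cons_val_zero, Matrix.cons_val_one, Matrix.cons_val] <;> fun_prop

/-- The vector field is divergence free where `|F|² ≥ 9/16`. -/
theorem div_field {F : (Fin 4 → ℝ) → Fin 4 → ℝ} (hF : ContDiff ℝ ∞ F) (x : Fin 4 → ℝ)
    (hx : 9 / 16 ≤ F x 0 ^ 2 + F x 1 ^ 2 + F x 2 ^ 2 + F x 3 ^ 2) :
    ∑ i, fderiv ℝ (field F) x (ee i) i = 0 := by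
  obtain ⟨c₁, c₂, c₃, hc⟩ := fderiv_cut (F x) hx
  set g₁ := grad (fun x => F x 1) with hg₁
  set g₂ := grad (fun x => F x 2) with hg₂
  set g₃ := grad (fun x => F x 3) with hg₃
  have key : ∀ i, fderiv ℝ (field F) x (ee i) i =
      (c₁ * g₁ x i + c₂ * g₂ x i + c₃ * g₃ x i) * cross (g₁ x) (g₂ x) (g₃ x) i
      + cut (F x) * (cross (hess (fun x => F x 1) x i) (g₂ x) (g₃ x) i
        + cross (g₁ x) (hess (fun x => F x 2) x i) (g₃ x) i
        + cross (g₁ x) (g₂ x) (hess (fun x => F x 3) x i) i) := by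
    intro i
    have hd : HasFDerivAt (field F) (fderiv ℝ (field F) x) x :=
      (((contDiff_field hF).differentiable (by simp)) x).hasFDerivAt
    have hl : HasDerivAt (fun u : ℝ => field F (x + u • ee i)) (fderiv ℝ (field F) x (ee i)) 0 :=
      hd.hasLineDerivAt (ee i)
    have hli := (hasDerivAt_pi.1 hl) i
    have hFd : HasFDerivAt F (fderiv ℝ F x) x := ((hF.differentiable (by simp)) x).hasFDerivAt
    have hFl : HasDerivAt (fun u : ℝ => F (x + u • ee i)) (fderiv ℝ F x (ee i)) 0 :=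
      hFd.hasLineDerivAt (ee i)
    have hFa : ∀ a, fderiv ℝ F x (ee i) a = grad (fun x => F x a) x i := by
      intro a
      have h1 := (hasDerivAt_pi.1 hFl) a
      have h2 : HasFDerivAt (fun x => F x a) (fderiv ℝ (fun x => F x a) x) x :=
        (((contDiff_comp hF a).differentiable (by simp)) x).hasFDerivAt
      exact h1.unique (h2.hasLineDerivAt (ee i))
    have hcut : HasDerivAt (fun u : ℝ => cut (F (x + u • ee i)))
        (c₁ * g₁ x i + c₂ * g₂ x i + c₃ * g₃ x i) 0 := by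
      have h1 : HasFDerivAt cut (fderiv ℝ cut (F (x + (0 : ℝ) • ee i)))
          (F (x + (0 : ℝ) • ee i)) :=
        ((contDiff_cut.differentiable (by simp)) _).hasFDerivAt
      have h2 := h1.comp_hasDerivAt (0 : ℝ) hFl
      simp only [zero_smul, add_zero] at h2
      rw [hc, hFa, hFa, hFa] at h2
      exact h2
    have hcr := hasDerivAt_cross (hasDerivAt_grad (contDiff_comp hF 1) x i)
      (hasDerivAt_grad (contDiff_comp hF 2) x i) (hasDerivAt_grad (contDiff_comp hF 3) x i) i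
    have hprod := hcut.mul hcr
    simp only [zero_smul, add_zero] at hprod
    exact hli.unique hprod
  simp only [key]
  have e1 := cross_orth₁ (g₁ x) (g₂ x) (g₃ x)
  have e2 := cross_orth₂ (g₁ x) (g₂ x) (g₃ x)
  have e3 := cross_orth₃ (g₁ x) (g₂ x) (g₃ x)
  have e4 := cross_symm₁ (hess (fun x => F x 1) x) (hess_symm (contDiff_comp hF 1) x)
    (g₂ x) (g₃ x)
  have e5 := cross_symm₂ (hess (fun x => F x 2) x) (hess_symm (contDiff_comp hF 2) x)
    (g₁ x) (g₃ x)
  have e6 := cross_symm₃ (hess (fun x => F x 3) x) (hess_symm (contDiff_comp hF 3) x)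
    (g₁ x) (g₂ x)
  simp only [Fin.sum_univ_four] at e1 e2 e3 e4 e5 e6 ⊢
  linear_combination c₁ * e1 + c₂ * e2 + c₃ * e3 + cut (F x) * (e4 + e5 + e6)

end Pool.Agent.Work.MP_49f0e1_gt
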